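import Pool.Agent.Helper8.LV.Bound
import Pool.Agent.Helper8.LV.Ultra
import Pool.Agent.Helper8.LG.Trd
import Pool.Agent.Helper8.LG.Reduce

/-! # LG-FINAL: the theorem over fields -/

set_option autoImplicit false

namespace Pool.Agent.Helper8.LV

open Pool.Agent.Helper8.LG

open scoped BigOperators

private theorem num_mono {ι : Type*} [Fintype ι] {d q e m : ι → ℕ} {Z C : Finset ι} {w c c' : ℕ}
    (h : NumV d q e m Z C w c) (hc : c' ≤ c) : NumV d q e m Z C w c' where
  pos := h.pos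
  posq := h.posq
  disj := h.disj
  deg := h.deg
  e0 := h.e0
  ineq := by
    have := h.ineq
    omega

theorem over_tower {k₀ k L : Type*} [Field k₀] [Field k] [Field L] [Algebra k₀ L] [Algebra k L]
    [Algebra k₀ k] [IsScalarTower k₀ k L] {σ ι : Type*} {d : ι → ℕ}
    {A : (i : ι) → Sym σ (d i) → L} (h : Over k₀ A) : Over k A := by
  intro i J
  obtain ⟨c, hc⟩ := h i J
  exact ⟨algebraMap k₀ k c, by rw [← hc, ← IsScalarTower.algebraMap_apply k₀ k L]⟩

/-- normalised points, all roots non-zero -/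
theorem final_aux {k₀ L : Type*} [Field k₀] [Field L] [CharZero L] [Algebra k₀ L]
    (hfg : (⊤ : IntermediateField k₀ L).FG)
    {σ ι : Type*} [Fintype σ] [DecidableEq σ] [Fintype ι] [DecidableEq ι]
    (d b q e m : ι → ℕ) (a aA : (i : ι) → Sym σ (d i) → L) (ap : (i : ι) → Sym σ (b i) → L)
    (ah : (i : ι) → Sym σ (q i) → L) (hFam : Fam d b q a aA ap ah) (hAk : Over k₀ aA)
    (hpk : Over k₀ ap) (w c : ℕ)
    (hc : (Fintype.card (Ix σ q) : Cardinal) ≤ Algebra.trdeg k₀
      (IntermediateField.adjoin k₀ (Set.range fun p : Ix σ q => ah p.1 p.2)) + c)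
    (Z C : Finset ι) (i₀ : σ) (hnum : NumV d q e m Z C w c)
    (A : Subalgebra k₀ L) (hA : A.FG) :
    {x : σ → L | x i₀ = 1 ∧
      Algebra.trdeg k₀ (IntermediateField.adjoin k₀ (Set.range x)) ≤ w ∧
      (∀ i, form (ap i) x ≠ 0) ∧
      (∀ i ∈ Z, form (a i) x = 0) ∧ (∀ i ∉ Z, form (a i) x ≠ 0) ∧
      (∀ i ∈ C, ∃ y : L, y ^ m i = form (a i) x) ∧
      ∀ i ∉ Z, i ∉ C → ∀ J : Sym σ (d i), IsIntegral A (mon x J / form (a i) x)}.Finite := by
  classical
  obtain ⟨T, k, hT, hind, hfin, D, θ, hD, hDk⟩ := reduce hfg q ah c hc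
  have hnum' := num_mono hnum hT
  -- the algebra over `k`
  obtain ⟨s, hs⟩ := hA
  set A' : Subalgebra k L := Algebra.adjoin k (s : Set L) with hA'
  have hAA' : ∀ f ∈ A, f ∈ A' := by
    intro f hf
    rw [← hs] at hf
    induction hf using Algebra.adjoin_induction with
    | mem x hx => exact Algebra.subset_adjoin hx
    | algebraMap r =>
      have h1 : algebraMap k₀ L r = algebraMap k L (algebraMap k₀ k r) :=
        IsScalarTower.algebraMap_apply k₀ k L r
      rw [h1]
      exact A'.algebraMap_mem _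
    | add x y _ _ hx hy => exact add_mem hx hy
    | mul x y _ _ hx hy => exact mul_mem hx hy
  have hAk' : Over k aA := over_tower hAk
  have hpk' : Over k ap := over_tower hpk
  obtain ⟨V, hV, hVb⟩ := bounded d b q e m a aA ap ah hFam hAk' hpk' T hind hfin D
    (fun j => j.1) θ hD (fun j => j.2) hDk Z C i₀ w hnum' A' ⟨s, rfl⟩
  haveI := hV
  refine ultra (k := k) d b q e m a aA ap ah hFam hAk' hpk' D (fun j => j.1) θ hD hDk
    Z C i₀ w hnum' V _ ?_
  rintro x ⟨h1, h2, hP, h3, h4, h5, h6⟩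
  have hrank : MinorsVanish D x w := by
    refine minors_of_trdeg (k := k₀) D ?_ x i₀ h1 w h2
    intro p r
    have h7 : algebraMap k₀ L r = algebraMap k L (algebraMap k₀ k r) :=
      IsScalarTower.algebraMap_apply k₀ k L r
    rw [h7]
    exact hDk p _
  choose y hy using h5
  set y' : ι → L := fun i => if h : i ∈ C then y i h else 0 with hy'
  have hyy : ∀ i ∈ C, y' i ^ m i = form (a i) x := by
    intro i hi
    rw [hy']
    simp only [dif_pos hi]
    exact hy i hi
  have hgood : GoodV d m a D Z C i₀ w A'.toSubring x y' := by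
    refine ⟨h1, h3, h4, hyy, ?_, hrank⟩
    intro i hiZ hiC J
    have h8 := h6 i hiZ hiC J
    exact h8.map_of_comp_eq (Subring.inclusion (S := A.toSubring) (T := A'.toSubring)
      (fun f hf => hAA' f hf)) (RingHom.id L) rfl
  obtain ⟨G, hG, hG1, hG2, hG3⟩ := hVb x y' hgood hP
  exact ⟨h1, h3, h4, hP, hrank, y', G, hG, hG1, hG2, hyy, hG3⟩

end Pool.Agent.Helper8.LV
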