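import Pool.Agent.Helper8.LV.EngG
import Pool.Agent.Helper10.LV.FinLines

/-! # LV-ENGL: finitely many lines, in terms of polynomials -/

set_option autoImplicit false

open MvPolynomial

namespace Pool.Agent.Helper8.LV

open scoped BigOperators
open Pool.Agent.Helper8.LG

/-- the line engine: polynomials, several multipliers, normalised points -/
theorem eng_L {k₀ L : Type*} [Field k₀] [Field L] [CharZero L] [Algebra k₀ L]
    (hfg : (⊤ : IntermediateField k₀ L).FG) {N r s : ℕ} (d q : Fin r → ℕ)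
    (b : Fin r → Fin s → ℕ) (hq : ∀ i, 0 < q i) (hbq : ∀ i j, b i j + q i ≤ d i)
    (F : Fin r → MvPolynomial (Fin (N + 1)) L)
    (A : Fin r → MvPolynomial (Fin (N + 1)) k₀) (hA : ∀ i, (A i).IsHomogeneous (d i))
    (P : Fin r → Fin s → MvPolynomial (Fin (N + 1)) k₀)
    (hP : ∀ i j, (P i j).IsHomogeneous (b i j))
    (H : Fin r → Fin s → MvPolynomial (Fin (N + 1)) L)
    (hH : ∀ i j, (H i j).IsHomogeneous (d i - b i j))
    (hFA : ∀ i, F i = map (algebraMap k₀ L) (A i) + ∑ j, map (algebraMap k₀ L) (P i j) * H i j)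
    (c : ℕ)
    (hcoef : ((∑ i, ∑ j, (N + (d i - b i j)).choose N : ℕ) : Cardinal) ≤
      Algebra.trdeg k₀ (IntermediateField.adjoin k₀ {z | ∃ i j J, z = coeff J (H i j)}) + c)
    (Z : Finset (Fin r)) (h1 : 2 * N + 1 + c ≤ ∑ i, q i + Z.card) (h2 : N + 2 ≤ ∑ i, q i)
    (i₀ : Fin (N + 1)) (R : Subalgebra k₀ L) (hR : R.FG) :
    ∃ Λ : Set (Submodule L (Fin (N + 1) → L)), Λ.Finite ∧
      (∀ W ∈ Λ, Module.finrank L W ≤ 2) ∧ ∀ x : Fin (N + 1) → L, x i₀ = 1 →
      (∀ i, ∃ j, aeval x (P i j) ≠ 0) → (∀ i ∈ Z, eval x (F i) = 0) →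
      (∀ i ∉ Z, eval x (F i) ≠ 0 ∧
        ∀ J : Sym (Fin (N + 1)) (d i), mon x J / eval x (F i) ∈ R) → ∃ W ∈ Λ, x ∈ W := by
  classical
  have hdF : ∀ i, (∃ j : Fin s, True) → (F i).IsHomogeneous (d i) := by
    rintro i ⟨j, -⟩
    rw [hFA i]
    refine ((hA i).map _).add (IsHomogeneous.sum _ _ _ fun j _ => ?_)
    have h1 := ((hP i j).map (algebraMap k₀ L)).mul (hH i j)
    rwa [Nat.add_sub_cancel' ((Nat.le_add_right _ _).trans (hbq i j))] at h1
  have hmain : ∀ S' ⊆ {x : Fin (N + 1) → L | x i₀ = 1 ∧ (∀ i, ∃ j, aeval x (P i j) ≠ 0) ∧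
      (∀ i ∈ Z, eval x (F i) = 0) ∧ ∀ i ∉ Z, eval x (F i) ≠ 0 ∧
        ∀ J : Sym (Fin (N + 1)) (d i), mon x J / eval x (F i) ∈ R}, S'.Infinite →
      ∃ W : Submodule L (Fin (N + 1) → L), Module.finrank L W ≤ 2 ∧ (S' ∩ W).Infinite := by
    intro S' hS' hinf
    by_contra hcon
    push Not at hcon
    refine hinf ((multi d b (fun i j => (Nat.le_add_right _ _).trans (hbq i j)) A hA P hP H hH c
      hcoef S' ?_).subset fun x hx => ⟨hx, (hS' hx).2.1⟩)
    intro k j A' hA' hFA' hcoef'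
    have hkfg : (⊤ : IntermediateField k L).FG := fg_tower k hfg
    -- the data
    obtain ⟨q', hq'⟩ : ∃ q' : Fin r → ℕ, q' = fun i => d i - b i (j i) := ⟨_, rfl⟩
    have hdb : ∀ i, d i = b i (j i) + q' i := by
      intro i
      have := hbq i (j i)
      rw [hq']
      simp only
      omega
    have hqq : ∀ i, q i ≤ q' i := by
      intro i
      have := hbq i (j i)
      rw [hq']
      simp only
      omega
    have hFam : Fam d (fun i => b i (j i)) q' (fun i => cf (d i) (F i))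
        (fun i => cf (d i) (map (algebraMap k L) (A' i)))
        (fun i => cf (b i (j i)) (map (algebraMap k L) (map (algebraMap k₀ k) (P i (j i)))))
        fun i => cf (q' i) (H i (j i)) := by
      refine fam_poly d (fun i => b i (j i)) q' hdb F A' (fun i => map (algebraMap k₀ k) (P i (j i)))
        (fun i => H i (j i)) (fun i => (hP i (j i)).map _) (fun i => ?_) (fun i => ?_)
      · rw [hq']
        exact hH i (j i)
      · rw [hFA i, hFA' i, map_map, ← IsScalarTower.algebraMap_eq]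
    have hform : ∀ (x : Fin (N + 1) → L) i, form (cf (d i) (F i)) x = eval x (F i) := fun x i =>
      form_cf _ (hdF i ⟨j i, trivial⟩) x
    have hformP : ∀ (x : Fin (N + 1) → L) i,
        form (cf (b i (j i)) (map (algebraMap k L) (map (algebraMap k₀ k) (P i (j i))))) x
          = aeval x (P i (j i)) := by
      intro x i
      rw [form_poly _ ((hP i (j i)).map _), aeval_map_algebraMap]
    obtain ⟨R', hR', hRR'⟩ := subalgebra_tower k R hR
    obtain ⟨Λ, hΛ, hΛ2, hcov⟩ := Pool.Agent.Helper10.LV.fin_lines hkfg d (fun i => b i (j i)) q'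
      (fun i => cf (d i) (F i)) _ _ _ hFam (over_poly d A') (over_poly (fun i => b i (j i)) _)
      (fun i => (hq i).trans_le (hqq i)) c (by
        rw [card_Ix, ← adjoin_poly k q' (fun i => H i (j i))
          (fun i => by rw [hq']; exact hH i (j i))]
        rw [hq']
        exact hcoef') Z i₀ (by
        have h3 : ∑ i, q i ≤ ∑ i, q' i := Finset.sum_le_sum fun i _ => hqq i
        rw [Fintype.card_fin]
        omega) (by
        have h3 : ∑ i, q i ≤ ∑ i, q' i := Finset.sum_le_sum fun i _ => hqq i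
        rw [Fintype.card_fin]
        omega) R' hR'
    refine (Set.Finite.biUnion hΛ (t := fun W => S' ∩ (W : Set (Fin (N + 1) → L)))
      fun W hW => hcon W (hΛ2 W hW)).subset ?_
    rintro x ⟨hx, h6⟩
    obtain ⟨h3, -, h4, h5⟩ := hS' hx
    obtain ⟨W, hW, hxW⟩ := hcov x h3 ⟨fun i hi => by rw [hform]; exact h4 i hi,
      fun i hi => by rw [hform]; exact (h5 i hi).1, fun i hi J => by
        rw [hform]
        exact isIntegral_algebraMap (R := R'.toSubring) (x := ⟨_, hRR' _ ((h5 i hi).2 J)⟩)⟩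
      (fun i => by rw [hformP]; exact h6 i)
    rw [Set.mem_iUnion₂]
    exact ⟨W, hW, hx, hxW⟩
  obtain ⟨Λ, h1, h2, h3⟩ := Pool.Agent.Helper10.LB.greedy _ hmain i₀ fun x hx => hx.1
  exact ⟨Λ, h1, h2, fun x hx hP hZ hU => h3 x ⟨hx, hP, hZ, hU⟩⟩

end Pool.Agent.Helper8.LV
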