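import Mathlib

/-! # LV-REFINE: points of a hypersurface on finitely many lines -/

set_option autoImplicit false

open MvPolynomial

namespace Pool.Agent.Helper8.LV

theorem lr_eval_smul {K : Type*} [Field K] {N n : ℕ} (F : MvPolynomial (Fin (N + 1)) K)
    (hF : F.IsHomogeneous n) (c : K) (x : Fin (N + 1) → K) :
    eval (c • x) F = c ^ n * eval x F := by
  rw [eval_eq', eval_eq', Finset.mul_sum]
  refine Finset.sum_congr rfl fun m hm => ?_
  have h1 : ∑ i, m i = n := by
    have h2 : m.degree = n := by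
      by_contra h
      exact (mem_support_iff.1 hm) (hF.coeff_eq_zero h)
    rw [← h2, Finsupp.degree_eq_sum]
  have h3 : ∏ i, (c • x) i ^ m i = c ^ n * ∏ i, x i ^ m i := by
    simp only [Pi.smul_apply, smul_eq_mul, mul_pow]
    rw [Finset.prod_mul_distrib, Finset.prod_pow_eq_pow_sum, h1]
  rw [h3]
  ring

theorem lr_eval_zero {K : Type*} [Field K] {N n : ℕ} (hn : 0 < n)
    (F : MvPolynomial (Fin (N + 1)) K) (hF : F.IsHomogeneous n) :
    eval (0 : Fin (N + 1) → K) F = 0 := by
  have h := lr_eval_smul F hF 0 0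
  rw [zero_smul, zero_pow hn.ne', zero_mul] at h
  exact h

/-- The zeros of a form `F` on a subspace of dimension at most two where `F` is not identically
zero lie on finitely many subspaces of dimension at most one where `F` vanishes. -/
theorem line_zeros {K : Type*} [Field K] {N n : ℕ} (hn : 0 < n)
    (F : MvPolynomial (Fin (N + 1)) K) (hF : F.IsHomogeneous n)
    (W : Submodule K (Fin (N + 1) → K)) (hW : Module.finrank K W ≤ 2)
    (hne : ∃ x ∈ W, eval x F ≠ 0) :
    ∃ Λ : Set (Submodule K (Fin (N + 1) → K)), Λ.Finite ∧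
      (∀ W' ∈ Λ, Module.finrank K W' ≤ 1 ∧ W' ≤ W ∧ ∀ x ∈ W', eval x F = 0) ∧
      ∀ x ∈ W, eval x F = 0 → ∃ W' ∈ Λ, x ∈ W' := by
  classical
  obtain ⟨x₀, hx₀, hF₀⟩ := hne
  have hx0 : x₀ ≠ 0 := by
    rintro rfl
    exact hF₀ (lr_eval_zero hn F hF)
  -- a second vector
  obtain ⟨y, hyW, hy⟩ : ∃ y ∈ W, ∀ x ∈ W, ∃ a b : K, x = a • x₀ + b • y := by
    by_cases hle : W ≤ Submodule.span K {x₀}
    · refine ⟨0, W.zero_mem, fun x hx => ?_⟩
      obtain ⟨a, ha⟩ := Submodule.mem_span_singleton.1 (hle hx)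
      exact ⟨a, 0, by rw [ha, zero_smul, add_zero]⟩
    · obtain ⟨y, hyW, hyn⟩ := Set.not_subset.1 hle
      refine ⟨y, hyW, fun x hx => ?_⟩
      have hli : LinearIndependent K ![x₀, y] := by
        rw [LinearIndependent.pair_iff' hx0]
        intro a ha
        exact hyn (Submodule.mem_span_singleton.2 ⟨a, ha⟩)
      have hr : Module.finrank K (Submodule.span K (Set.range ![x₀, y])) = 2 := by
        rw [finrank_span_eq_card hli, Fintype.card_fin]
      have hle2 : Submodule.span K (Set.range ![x₀, y]) ≤ W := by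
        rw [Submodule.span_le]
        rintro _ ⟨i, rfl⟩
        fin_cases i
        · exact hx₀
        · exact hyW
      have heq : Submodule.span K (Set.range ![x₀, y]) = W :=
        Submodule.eq_of_le_of_finrank_le hle2 (by rw [hr]; exact hW)
      rw [← heq, Matrix.range_cons, Matrix.range_cons, Matrix.range_empty, Set.union_empty,
        Set.singleton_union] at hx
      obtain ⟨a, b, hab⟩ := Submodule.mem_span_pair.1 hx
      exact ⟨a, b, hab.symm⟩
  -- the polynomial
  set q : Polynomial K := aeval (fun i => Polynomial.C (x₀ i) + Polynomial.C (y i) *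
    Polynomial.X) F with hq
  have hqe : ∀ s : K, q.eval s = eval (x₀ + s • y) F := by
    intro s
    have h1 : (Polynomial.aeval s).comp (aeval (fun i => Polynomial.C (x₀ i) +
        Polynomial.C (y i) * Polynomial.X) : MvPolynomial (Fin (N + 1)) K →ₐ[K] Polynomial K) =
        aeval (x₀ + s • y) := by
      refine MvPolynomial.algHom_ext fun i => ?_
      simp only [AlgHom.comp_apply, MvPolynomial.aeval_X, map_add, map_mul, Polynomial.aeval_C,
        Polynomial.aeval_X, Algebra.algebraMap_self, RingHom.id_apply, Pi.add_apply,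
        Pi.smul_apply, smul_eq_mul]
      ring
    have h2 := congrArg (fun f : MvPolynomial (Fin (N + 1)) K →ₐ[K] K => f F) h1
    simp only [AlgHom.comp_apply] at h2
    rw [hq, ← Polynomial.coe_aeval_eq_eval, ← MvPolynomial.coe_aeval_eq_eval]
    exact h2
  have hq0 : q ≠ 0 := by
    intro h
    have h1 := hqe 0
    rw [h, Polynomial.eval_zero, zero_smul, add_zero] at h1
    exact hF₀ h1.symm
  set Λ : Set (Submodule K (Fin (N + 1) → K)) :=
    insert ⊥ (((fun s : K => Submodule.span K {x₀ + s • y}) '' (q.roots.toFinset : Set K)) ∪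
      (if eval y F = 0 then {Submodule.span K {y}} else ∅)) with hΛ
  have hspan : ∀ (v : Fin (N + 1) → K), v ∈ W → eval v F = 0 →
      Module.finrank K (Submodule.span K {v}) ≤ 1 ∧ Submodule.span K {v} ≤ W ∧
        ∀ x ∈ Submodule.span K {v}, eval x F = 0 := by
    intro v hv hv0
    refine ⟨?_, ?_, ?_⟩
    · exact (finrank_span_le_card ({v} : Set (Fin (N + 1) → K))).trans (by simp)
    · rw [Submodule.span_singleton_le_iff_mem]
      exact hv
    · intro x hx
      obtain ⟨c, rfl⟩ := Submodule.mem_span_singleton.1 hx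
      rw [lr_eval_smul F hF, hv0, mul_zero]
  refine ⟨Λ, ?_, ?_, ?_⟩
  · refine Set.Finite.insert _ (Set.Finite.union ((Finset.finite_toSet _).image _) ?_)
    split_ifs
    · exact Set.finite_singleton _
    · exact Set.finite_empty
  · intro W' hW'
    rcases hW' with rfl | hW' | hW'
    · refine ⟨by simp, bot_le, fun x hx => ?_⟩
      rw [(Submodule.mem_bot K).1 hx]
      exact lr_eval_zero hn F hF
    · obtain ⟨s, hs, rfl⟩ := hW'
      have hs1 : q.eval s = 0 := by
        have : s ∈ q.roots := Multiset.mem_toFinset.1 (Finset.mem_coe.1 hs)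
        exact Polynomial.isRoot_of_mem_roots this
      rw [hqe] at hs1
      exact hspan _ (W.add_mem hx₀ (W.smul_mem s hyW)) hs1
    · split_ifs at hW' with h
      · rw [Set.mem_singleton_iff] at hW'
        rw [hW']
        exact hspan y hyW h
      · exact absurd hW' (Set.notMem_empty _)
  · intro x hx hx1
    obtain ⟨a, b, rfl⟩ := hy x hx
    by_cases ha : a = 0
    · subst ha
      rw [zero_smul, zero_add] at hx1 ⊢
      rw [lr_eval_smul F hF] at hx1
      rcases mul_eq_zero.1 hx1 with h | h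
      · have hb : b = 0 := (pow_eq_zero_iff hn.ne').1 h
        refine ⟨⊥, Set.mem_insert _ _, ?_⟩
        rw [hb, zero_smul]
        exact Submodule.zero_mem _
      · refine ⟨Submodule.span K {y}, ?_, Submodule.mem_span_singleton.2 ⟨b, rfl⟩⟩
        refine Or.inr (Or.inr ?_)
        rw [if_pos h]
        rfl
    · have e : a • x₀ + b • y = a • (x₀ + (b / a) • y) := by
        rw [smul_add, smul_smul, mul_div_cancel₀ _ ha]
      rw [e] at hx1 ⊢
      rw [lr_eval_smul F hF] at hx1
      have h1 : eval (x₀ + (b / a) • y) F = 0 :=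
        (mul_eq_zero.1 hx1).resolve_left (pow_ne_zero _ ha)
      refine ⟨Submodule.span K {x₀ + (b / a) • y}, ?_,
        Submodule.mem_span_singleton.2 ⟨a, rfl⟩⟩
      refine Or.inr (Or.inl ⟨b / a, ?_, rfl⟩)
      rw [Finset.mem_coe, Multiset.mem_toFinset, Polynomial.mem_roots hq0, Polynomial.IsRoot,
        hqe]
      exact h1

/-- Several forms: the common zeros of the `F i`, `i ∈ Z`, on finitely many subspaces of dimension
at most two lie on finitely many subspaces of dimension at most two where all these `F i` vanish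
identically. -/
theorem line_refine {K : Type*} [Field K] {N r : ℕ} (d : Fin r → ℕ) (hd : ∀ i, 0 < d i)
    (F : Fin r → MvPolynomial (Fin (N + 1)) K) (hF : ∀ i, (F i).IsHomogeneous (d i))
    (Z : Finset (Fin r)) (Λ : Set (Submodule K (Fin (N + 1) → K))) (hΛ : Λ.Finite)
    (hΛ2 : ∀ W ∈ Λ, Module.finrank K W ≤ 2) :
    ∃ Λ' : Set (Submodule K (Fin (N + 1) → K)), Λ'.Finite ∧
      (∀ W ∈ Λ', Module.finrank K W ≤ 2 ∧ ∀ i ∈ Z, ∀ x ∈ W, eval x (F i) = 0) ∧
      ∀ W ∈ Λ, ∀ x ∈ W, (∀ i ∈ Z, eval x (F i) = 0) → ∃ W' ∈ Λ', x ∈ W' := by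
  classical
  induction Z using Finset.induction_on with
  | empty => exact ⟨Λ, hΛ, fun W hW => ⟨hΛ2 W hW, by simp⟩, fun W hW x hx _ => ⟨W, hW, hx⟩⟩
  | insert i Z hi ih =>
    obtain ⟨Λ₁, hf, h1, h2⟩ := ih
    have key : ∀ W ∈ Λ₁, ∃ M : Set (Submodule K (Fin (N + 1) → K)), M.Finite ∧
        (∀ W' ∈ M, Module.finrank K W' ≤ 2 ∧ W' ≤ W ∧ ∀ x ∈ W', eval x (F i) = 0) ∧
        ∀ x ∈ W, eval x (F i) = 0 → ∃ W' ∈ M, x ∈ W' := by
      intro W hW
      by_cases hz : ∀ x ∈ W, eval x (F i) = 0
      · exact ⟨{W}, Set.finite_singleton _, fun W' hW' => by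
          rw [Set.mem_singleton_iff] at hW'
          rw [hW']
          exact ⟨(h1 W hW).1, le_refl _, hz⟩, fun x hx _ => ⟨W, rfl, hx⟩⟩
      · push Not at hz
        obtain ⟨M, a1, a2, a3⟩ := line_zeros (hd i) (F i) (hF i) W (h1 W hW).1 hz
        exact ⟨M, a1, fun W' hW' => ⟨(a2 W' hW').1.trans (by norm_num), (a2 W' hW').2⟩, a3⟩
    choose! M hM1 hM2 hM3 using key
    refine ⟨⋃ W ∈ Λ₁, M W, hf.biUnion hM1, ?_, ?_⟩
    · intro W' hW'
      simp only [Set.mem_iUnion] at hW'
      obtain ⟨W, hW, hW'⟩ := hW'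
      obtain ⟨b1, b2, b3⟩ := hM2 W hW W' hW'
      refine ⟨b1, fun j hj x hx => ?_⟩
      rcases Finset.mem_insert.1 hj with rfl | hj
      · exact b3 x hx
      · exact (h1 W hW).2 j hj x (b2 hx)
    · intro W hW x hx hz
      obtain ⟨W₁, hW₁, hx₁⟩ := h2 W hW x hx fun j hj => hz j (Finset.mem_insert_of_mem hj)
      obtain ⟨W', hW', hx'⟩ := hM3 W₁ hW₁ x hx₁ (hz i (Finset.mem_insert_self _ _))
      exact ⟨W', Set.mem_iUnion.2 ⟨W₁, Set.mem_iUnion.2 ⟨hW₁, hW'⟩⟩, hx'⟩

end Pool.Agent.Helper8.LV
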