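import Pool.Agent.Helper8.LG.Defs

/-!
# LV: moving linear systems, definitions

`F_i = A_i + P_i H_i`: the coefficients of `H_i` move, those of `A_i` and `P_i` are killed by the
derivations.
-/

set_option autoImplicit false

namespace Pool.Agent.Helper8.LV

open scoped BigOperators
open Pool.Agent.Helper8.LG

section

variable {E : Type*} [Field E] {σ ι P τ : Type*}

/-- `F_i = A_i + P_i H_i`, where `a i`, `A i`, `p i`, `h i` are the coefficients of `F_i`, `A_i`,
`P_i`, `H_i`. -/
structure Fam [Fintype σ] [DecidableEq σ] (d b q : ι → ℕ) (a A : (i : ι) → Sym σ (d i) → E)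
    (p : (i : ι) → Sym σ (b i) → E) (h : (i : ι) → Sym σ (q i) → E) : Prop where
  deg : ∀ i, d i = b i + q i
  eq : ∀ i J, a i J = A i J + ∑ J' : Sym σ (b i), ∑ J'' : Sym σ (q i),
    if (J' : Multiset σ) + (J'' : Multiset σ) = (J : Multiset σ) then p i J' * h i J'' else 0

/-- Moreover the coefficients of `A_i` and `P_i` are killed by the derivations. -/
structure Mov [Fintype σ] [DecidableEq σ] (d b q : ι → ℕ) (a A : (i : ι) → Sym σ (d i) → E)
    (p : (i : ι) → Sym σ (b i) → E) (h : (i : ι) → Sym σ (q i) → E)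
    (D : P → Derivation ℤ E E) : Prop extends Fam d b q a A p h where
  DA : ∀ s i J, D s (A i J) = 0
  Dp : ∀ s i J, D s (p i J) = 0

theorem Fam.map [Fintype σ] [DecidableEq σ] {E' : Type*} [Field E'] {d b q : ι → ℕ}
    {a A : (i : ι) → Sym σ (d i) → E} {p : (i : ι) → Sym σ (b i) → E}
    {h : (i : ι) → Sym σ (q i) → E} (H : Fam d b q a A p h) (f : E →+* E') :
    Fam d b q (fun i J => f (a i J)) (fun i J => f (A i J)) (fun i J => f (p i J))
      fun i J => f (h i J) where
  deg := H.deg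
  eq := fun i J => by
    rw [H.eq i J, map_add, map_sum]
    congr 1
    refine Finset.sum_congr rfl fun J' _ => ?_
    rw [map_sum]
    refine Finset.sum_congr rfl fun J'' _ => ?_
    split_ifs
    · exact map_mul _ _ _
    · exact map_zero _

/-- The coefficients `A i J` come from `k`. -/
def Over (k : Type*) [Field k] [Algebra k E] {d : ι → ℕ} (A : (i : ι) → Sym σ (d i) → E) : Prop :=
  ∀ i J, ∃ c : k, algebraMap k E c = A i J

theorem Fam.mov [Fintype σ] [DecidableEq σ] {k : Type*} [Field k] [Algebra k E] {d b q : ι → ℕ}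
    {a A : (i : ι) → Sym σ (d i) → E} {p : (i : ι) → Sym σ (b i) → E}
    {h : (i : ι) → Sym σ (q i) → E} (H : Fam d b q a A p h) (hA : Over k A) (hp : Over k p)
    (D : P → Derivation ℤ E E) (hD : ∀ s (c : k), D s (algebraMap k E c) = 0) :
    Mov d b q a A p h D where
  toFam := H
  DA := fun s i J => by
    obtain ⟨c, hc⟩ := hA i J
    rw [← hc]
    exact hD s c
  Dp := fun s i J => by
    obtain ⟨c, hc⟩ := hp i J
    rw [← hc]
    exact hD s c

theorem Over.map {k : Type*} [Field k] [Algebra k E] {d : ι → ℕ} {A : (i : ι) → Sym σ (d i) → E}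
    (H : Over k A) {E' : Type*} [Field E'] [Algebra E E'] [Algebra k E'] [IsScalarTower k E E'] :
    Over k fun i J => algebraMap E E' (A i J) := by
  intro i J
  obtain ⟨c, hc⟩ := H i J
  exact ⟨c, (IsScalarTower.algebraMap_apply k E E' c).trans (congrArg _ hc)⟩

/-- The conclusion of the key lemma: `G x_l` is integral up to a power of `Δ` at all valuation
rings where `Δ` bounds the derivations, the corrections and the rows. -/
def KeyV [Fintype σ] [DecidableEq σ] [Fintype ι] [Fintype τ]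
    (d e : ι → ℕ) (a : (i : ι) → Sym σ (d i) → E) (D : P → Derivation ℤ E E)
    (θ : τ → P → E) (Z : Finset ι) (u : ι → E) (x : σ → E) (G : E) : Prop :=
  ∀ (O : ValuationSubring E) (Δ : E), Bdd D Δ O → (∀ j s, Δ * θ j s ∈ O) →
      (∀ i ∉ Z, RowBdd D Δ O x (form (a i)) (u i) (e i)) →
      ∀ l, Δ ^ (Fintype.card σ + Fintype.card ι + Fintype.card τ) * (G * x l) ∈ O

/-- The numerical hypotheses: `Z` and `C` are disjoint, `d_i > 0`, `q_i > 0`, `d_i = m_i e_i` for
`i ∈ C`, `e_i = 0` for `i ∉ C`, and `∑ q_i + |Z| - ∑ e_i ≥ 2 w + 2 + c`. -/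
structure NumV [Fintype ι] (d q e m : ι → ℕ) (Z C : Finset ι) (w c : ℕ) : Prop where
  pos : ∀ i, 0 < d i
  posq : ∀ i, 0 < q i
  disj : ∀ i ∈ C, i ∉ Z
  deg : ∀ i ∈ C, d i = m i * e i
  e0 : ∀ i ∉ C, e i = 0
  ineq : 2 * w + 2 + c + ∑ i, e i ≤ ∑ i, q i + Z.card

/-- The conditions on a normalised point `x` with roots `y_i`, `i ∈ C`:
`F_i(x) = 0` for `i ∈ Z`, `F_i(x) ≠ 0` for `i ∉ Z`, `y_i ^ m_i = F_i(x)` for `i ∈ C`, all
`x^J/F_i(x)` integral over `A` for the other `i`, rank at most `w + 1`. -/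
structure GoodV [Fintype σ] [DecidableEq σ]
    (d m : ι → ℕ) (a : (i : ι) → Sym σ (d i) → E) (D : P → Derivation ℤ E E)
    (Z C : Finset ι) (i₀ : σ) (w : ℕ) (A : Subring E) (x : σ → E) (y : ι → E) : Prop where
  one : x i₀ = 1
  zero : ∀ i ∈ Z, form (a i) x = 0
  ne : ∀ i ∉ Z, form (a i) x ≠ 0
  root : ∀ i ∈ C, y i ^ m i = form (a i) x
  int : ∀ i ∉ Z, i ∉ C → ∀ J : Sym σ (d i), IsIntegral A (mon x J / form (a i) x)
  rank : MinorsVanish D x w

end

end Pool.Agent.Helper8.LV
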