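import Pool.Agent.Helper8.LG.DirTwo
import Pool.Agent.Helper8.LV.Defs

/-! # LG-DIR2: one direction of the base, second round -/

set_option autoImplicit false

namespace Pool.Agent.Helper8.LV

open Pool.Agent.Helper8.LG

open scoped BigOperators

/-- second round: the poles of `x^J/F_i(x)` and of `G^(e_i) y_i` are bounded -/
theorem dir_two {k L : Type*} [Field k] [Field L] [CharZero L] [Algebra k L]
    {σ ι P : Type*} [Fintype σ] [DecidableEq σ] [Fintype ι] [DecidableEq ι]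
    (d q e m : ι → ℕ) (a : (i : ι) → Sym σ (d i) → L) (D : P → Derivation ℤ L L)
    (Z C : Finset ι) (i₀ : σ) (w c : ℕ) (hnum : NumV d q e m Z C w c)
    (E₀ : Subfield L) (hk : ∀ c : k, algebraMap k L c ∈ E₀) (t : L) (ht : Transcendental E₀ t)
    (hfin : FiniteDimensional (Subfield.closure ((E₀ : Set L) ∪ {t})) L)
    (S : Set L) (hS : S.Finite) (hSa : ∀ p : Ix σ d, a p.1 p.2 ∈ S)
    (V : Submodule k L) [FiniteDimensional k V] :
    ∃ Δ : L, Δ ≠ 0 ∧ ∀ (x : σ → L) (y : ι → L) (G : L),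
      GoodV d m a D Z C i₀ w (Subring.closure ((E₀ : Set L) ∪ S)) x y →
      G ≠ 0 → (∀ l, G * x l ∈ V) →
      (∀ i ∉ Z, i ∉ C → ∀ J : Sym σ (d i), Δ * (mon x J / form (a i) x) ∈ intCl E₀ t) ∧
      ∀ i ∈ C, Δ * (G ^ e i * y i) ∈ intCl E₀ t := by
  classical
  obtain ⟨T, hT⟩ : V.FG := Module.Finite.iff_fg.1 inferInstance
  obtain ⟨Δ₀, hΔc, hΔ0, _, hΔS⟩ := exists_bound (P := Empty) E₀ t ht hfin (fun p => p.elim)
    (fun p => p.elim) (fun p => p.elim) (S ∪ (T : Set L)) (hS.union T.finite_toSet)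
  obtain ⟨hDed, hFrac⟩ := intCl_dedekind E₀ t ht hfin
  have hcl : Subring.closure ((E₀ : Set L) ∪ {t}) ≤ intCl E₀ t := by
    intro f hf
    exact isIntegral_algebraMap (R := Subring.closure ((E₀ : Set L) ∪ {t})) (x := ⟨f, hf⟩)
  have hE₀R : ∀ f ∈ E₀, f ∈ intCl E₀ t := fun f hf =>
    hcl (Subring.subset_closure (Or.inl hf))
  have hkR : ∀ c : k, algebraMap k L c ∈ intCl E₀ t := fun c => hE₀R _ (hk c)
  have hΔR : Δ₀ ∈ intCl E₀ t := hcl hΔc
  -- elements of `V` have bounded poles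
  have hVR : ∀ v ∈ V, Δ₀ * v ∈ intCl E₀ t := by
    intro v hv
    rw [← hT] at hv
    induction hv using Submodule.span_induction with
    | mem v hv => exact hΔS v (Or.inr hv)
    | zero => rw [mul_zero]; exact zero_mem _
    | add u v _ _ hu hv => rw [mul_add]; exact add_mem hu hv
    | smul c v _ hv =>
      rw [Algebra.smul_def, mul_left_comm]
      exact mul_mem (hkR c) hv
  -- the constants of `bounded_of`
  have hB : ∀ i : ι, ∃ c : ℕ, ∀ O : ValuationSubring L, intCl E₀ t ≤ O.toSubring →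
      Δ₀⁻¹ ∉ O → ∀ f ∈ dirTwoW V (a i), f ≠ 0 → Δ₀ ^ c * f⁻¹ ∈ O := by
    intro i
    have := dirTwo_finite V (a i)
    exact bounded_of (intCl E₀ t) hkR (dirTwoW V (a i)) Δ₀ hΔR hΔ0
  choose B hB using hB
  set N : ℕ := ∑ i, (B i + d i + 1) with hN
  have hNi : ∀ i, B i + d i + 1 ≤ N := fun i =>
    Finset.single_le_sum (f := fun i => B i + d i + 1) (fun _ _ => Nat.zero_le _)
      (Finset.mem_univ i)
  refine ⟨Δ₀ ^ N, pow_ne_zero _ hΔ0, ?_⟩
  intro x y G hgood hG hGx
  -- the monomials and the forms at `G x`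
  have hmon : ∀ i (J : Sym σ (d i)), Δ₀ ^ d i * mon (fun l => G * x l) J ∈ intCl E₀ t :=
    fun i J => dirTwo_mon_mem (intCl E₀ t) Δ₀ _ (fun l => hVR _ (hGx l)) J
  refine ⟨?_, ?_⟩
  · intro i hiZ hiC J
    refine mem_of (intCl E₀ t) _ fun O hO => ?_
    have hΔO : Δ₀ ∈ O := hO hΔR
    by_cases hinv : Δ₀⁻¹ ∈ O
    · have hA : Subring.closure ((E₀ : Set L) ∪ S) ≤ O.toSubring := by
        rw [Subring.closure_le]
        rintro f (hf | hf)
        · exact hO (hE₀R f hf)
        · have h1 : f = Δ₀⁻¹ * (Δ₀ * f) := by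
            rw [← mul_assoc, inv_mul_cancel₀ hΔ0, one_mul]
          rw [h1]
          exact mul_mem (S := ValuationSubring L) hinv (hO (hΔS f (Or.inl hf)))
      exact mul_mem (pow_mem hΔO N) (dirTwo_int_mem O _ hA (hgood.int i hiZ hiC J))
    · have hne : form (a i) (fun l => G * x l) ≠ 0 := by
        rw [dirTwo_form_mul]
        exact mul_ne_zero (pow_ne_zero _ hG) (hgood.ne i hiZ)
      have h1 := hB i O hO hinv _ (dirTwo_form_mem V (a i) _ hGx) hne
      have h2 : Δ₀ ^ d i * mon (fun l => G * x l) J ∈ O := hO (hmon i J)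
      have h3 : mon x J / form (a i) x
          = mon (fun l => G * x l) J * (form (a i) (fun l => G * x l))⁻¹ := by
        rw [dirTwo_mon_mul, dirTwo_form_mul]
        have := hgood.ne i hiZ
        field_simp
      obtain ⟨r, hr⟩ := Nat.exists_eq_add_of_le (hNi i)
      have h4 : Δ₀ ^ N * (mon x J / form (a i) x) = Δ₀ ^ (r + 1)
          * ((Δ₀ ^ B i * (form (a i) (fun l => G * x l))⁻¹)
            * (Δ₀ ^ d i * mon (fun l => G * x l) J)) := by
        rw [h3, hr]
        ring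
      rw [h4]
      exact mul_mem (pow_mem hΔO _) (mul_mem h1 h2)
  · intro i hiC
    have hdm : d i = m i * e i := hnum.deg i hiC
    have hm : 0 < m i := by
      rcases Nat.eq_zero_or_pos (m i) with h0 | h0
      · have := hnum.pos i
        rw [hdm, h0, zero_mul] at this
        exact absurd this (lt_irrefl 0)
      · exact h0
    have hroot : (G ^ e i * y i) ^ m i = form (a i) (fun l => G * x l) := by
      have h1 : G ^ d i = G ^ (e i * m i) := congrArg (fun r => G ^ r) (hdm.trans (mul_comm _ _))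
      rw [mul_pow, hgood.root i hiC, dirTwo_form_mul, ← pow_mul, h1]
    have hform : Δ₀ ^ (d i + 1) * form (a i) (fun l => G * x l) ∈ intCl E₀ t := by
      unfold form
      rw [Finset.mul_sum]
      refine sum_mem fun J _ => ?_
      have h1 : Δ₀ ^ (d i + 1) * (a i J * mon (fun l => G * x l) J)
          = (Δ₀ * a i J) * (Δ₀ ^ d i * mon (fun l => G * x l) J) := by ring
      rw [h1]
      exact mul_mem (hΔS _ (Or.inl (hSa ⟨i, J⟩))) (hmon i J)
    have hz : Δ₀ ^ (d i + 1) * (G ^ e i * y i) ∈ intCl E₀ t := by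
      have h1 : (Δ₀ ^ (d i + 1) * (G ^ e i * y i)) ^ m i ∈ intCl E₀ t := by
        obtain ⟨r, hr⟩ := Nat.exists_eq_succ_of_ne_zero hm.ne'
        have h2 : (Δ₀ ^ (d i + 1) * (G ^ e i * y i)) ^ m i
            = (Δ₀ ^ (d i + 1)) ^ r * (Δ₀ ^ (d i + 1) * form (a i) (fun l => G * x l)) := by
          rw [mul_pow, hroot, hr, pow_succ]
          ring
        rw [h2]
        exact mul_mem (pow_mem (pow_mem hΔR _) r) hform
      exact IsIntegral.of_pow hm h1
    obtain ⟨r, hr⟩ := Nat.exists_eq_add_of_le (hNi i)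
    have h4 : Δ₀ ^ N * (G ^ e i * y i)
        = Δ₀ ^ (B i + r) * (Δ₀ ^ (d i + 1) * (G ^ e i * y i)) := by
      rw [hr]
      ring
    rw [h4]
    exact mul_mem (pow_mem hΔR _) hz

end Pool.Agent.Helper8.LV
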