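import Pool.Agent.Helper8.LV.EngG
import Pool.Agent.Helper49.LV.FinalLine

/-! # LV-ENGA: the A' engine in terms of polynomials -/

set_option autoImplicit false

open MvPolynomial

namespace Pool.Agent.Helper8.LV

open scoped BigOperators
open Pool.Agent.Helper8.LG

/-- the A' engine: polynomials, several multipliers, normalised points -/
theorem eng_A {k₀ L : Type*} [Field k₀] [Field L] [CharZero L] [Algebra k₀ L]
    (hfg : (⊤ : IntermediateField k₀ L).FG) {N r s : ℕ} (d q : Fin r → ℕ)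
    (b : Fin r → Fin s → ℕ) (hq : ∀ i, 0 < q i) (hbq : ∀ i j, b i j + q i ≤ d i)
    (F : Fin r → MvPolynomial (Fin (N + 1)) L)
    (A : Fin r → MvPolynomial (Fin (N + 1)) k₀) (hA : ∀ i, (A i).IsHomogeneous (d i))
    (P : Fin r → Fin s → MvPolynomial (Fin (N + 1)) k₀)
    (hP : ∀ i j, (P i j).IsHomogeneous (b i j))
    (H : Fin r → Fin s → MvPolynomial (Fin (N + 1)) L)
    (hH : ∀ i j, (H i j).IsHomogeneous (d i - b i j))
    (hFA : ∀ i, F i = map (algebraMap k₀ L) (A i) + ∑ j, map (algebraMap k₀ L) (P i j) * H i j)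
    (w c : ℕ)
    (hcoef : ((∑ i, ∑ j, (N + (d i - b i j)).choose N : ℕ) : Cardinal) ≤
      Algebra.trdeg k₀ (IntermediateField.adjoin k₀ {z | ∃ i j J, z = coeff J (H i j)}) + c)
    (h1 : 2 * w + 1 + c ≤ ∑ i, (q i + 1)) (h2 : w + 2 ≤ ∑ i, q i)
    (h3 : 2 * N + c ≤ ∑ i, (q i + 1) + 1) (i₀ : Fin (N + 1)) :
    {x : Fin (N + 1) → L | x i₀ = 1 ∧
      Algebra.trdeg k₀ (IntermediateField.adjoin k₀ (Set.range x)) ≤ w ∧
      (∀ i, ∃ j, aeval x (P i j) ≠ 0) ∧ ∀ i, eval x (F i) = 0}.Finite := by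
  classical
  have hdF : ∀ i, (∃ j : Fin s, True) → (F i).IsHomogeneous (d i) := by
    rintro i ⟨j, -⟩
    rw [hFA i]
    refine ((hA i).map _).add (IsHomogeneous.sum _ _ _ fun j _ => ?_)
    have h1 := ((hP i j).map (algebraMap k₀ L)).mul (hH i j)
    rwa [Nat.add_sub_cancel' ((Nat.le_add_right _ _).trans (hbq i j))] at h1
  have hmulti := multi d b (fun i j => (Nat.le_add_right _ _).trans (hbq i j)) A hA P hP H hH c
    hcoef {x : Fin (N + 1) → L | x i₀ = 1 ∧
      Algebra.trdeg k₀ (IntermediateField.adjoin k₀ (Set.range x)) ≤ w ∧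
      ∀ i, eval x (F i) = 0} ?_
  · refine hmulti.subset ?_
    rintro x ⟨h1, h2, h3, h4⟩
    exact ⟨⟨h1, h2, h4⟩, h3⟩
  intro k j A' hA' hFA' hcoef'
  -- the field over `k`
  have hkfg : (⊤ : IntermediateField k L).FG := fg_tower k hfg
  -- the data
  obtain ⟨q', hq'⟩ : ∃ q' : Fin r → ℕ, q' = fun i => d i - b i (j i) := ⟨_, rfl⟩
  have hdb : ∀ i, d i = b i (j i) + q' i := by
    intro i
    have := hbq i (j i)
    rw [hq']
    simp only
    omega
  have hqq : ∀ i, q i ≤ q' i := by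
    intro i
    have := hbq i (j i)
    rw [hq']
    simp only
    omega
  have hFam : Fam d (fun i => b i (j i)) q' (fun i => cf (d i) (F i))
      (fun i => cf (d i) (map (algebraMap k L) (A' i)))
      (fun i => cf (b i (j i)) (map (algebraMap k L) (map (algebraMap k₀ k) (P i (j i)))))
      fun i => cf (q' i) (H i (j i)) := by
    refine fam_poly d (fun i => b i (j i)) q' hdb F A' (fun i => map (algebraMap k₀ k) (P i (j i)))
      (fun i => H i (j i)) (fun i => (hP i (j i)).map _) (fun i => ?_) (fun i => ?_)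
    · rw [hq']
      exact hH i (j i)
    · rw [hFA i, hFA' i, map_map, ← IsScalarTower.algebraMap_eq]
  have hform : ∀ (x : Fin (N + 1) → L) i, form (cf (d i) (F i)) x = eval x (F i) := fun x i =>
    form_cf _ (hdF i ⟨j i, trivial⟩) x
  have hformP : ∀ (x : Fin (N + 1) → L) i,
      form (cf (b i (j i)) (map (algebraMap k L) (map (algebraMap k₀ k) (P i (j i))))) x
        = aeval x (P i (j i)) := by
    intro x i
    rw [form_poly _ ((hP i (j i)).map _), aeval_map_algebraMap]
  have hs1 : ∑ i, (q i + 1) ≤ ∑ i, (q' i + 1) :=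
    Finset.sum_le_sum fun i _ => Nat.add_le_add_right (hqq i) 1
  have hs2 : ∑ i, q i ≤ ∑ i, q' i := Finset.sum_le_sum fun i _ => hqq i
  have hfin := Pool.Agent.Helper49.LV.final_line hkfg d (fun i => b i (j i)) q'
    (fun i => (hq i).trans_le (hqq i)) (fun i => cf (d i) (F i)) _ _ _ hFam
    (over_poly d A') (over_poly (fun i => b i (j i)) _) w c (by
      rw [card_Ix, ← adjoin_poly k q' (fun i => H i (j i)) (fun i => ?_)]
      · rw [hq']
        exact hcoef'
      · rw [hq']
        exact hH i (j i)) i₀ (h1.trans hs1) (h2.trans hs2) (by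
      rw [Fintype.card_fin]
      omega)
  refine hfin.subset ?_
  rintro x ⟨⟨h4, h5, h6⟩, h7⟩
  refine ⟨h4, (trdeg_mono' k _).trans h5, fun i => ?_, fun i => ?_⟩
  · rw [hformP]
    exact h7 i
  · rw [hform]
    exact h6 i

end Pool.Agent.Helper8.LV
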