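import Pool.Agent.Helper8.LG.SDefs

/-! # LV-MULTI: from one moving multiplier to several -/

set_option autoImplicit false

open MvPolynomial

namespace Pool.Agent.Helper8.LV

open scoped BigOperators

theorem multi_trdeg_le {F E : Type*} [Field F] [Field E] [Algebra F E] {ι : Type} [Fintype ι]
    (x : ι → E) :
    Algebra.trdeg F (IntermediateField.adjoin F (Set.range x)) ≤
      (Fintype.card ι : Cardinal) := by
  set K := IntermediateField.adjoin F (Set.range x) with hK
  have hxK : ∀ j, x j ∈ K := fun j => IntermediateField.subset_adjoin _ _ ⟨j, rfl⟩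
  set S : Set K := Set.range (fun j => (⟨x j, hxK j⟩ : K)) with hS
  have hSimg : ((↑) : K → E) '' S = Set.range x := by
    rw [hS, ← Set.range_comp]
    rfl
  have htop : IntermediateField.adjoin F S = ⊤ := by
    apply IntermediateField.map_injective K.val
    rw [IntermediateField.adjoin_map, ← AlgHom.fieldRange_eq_map,
      IntermediateField.fieldRange_val]
    have e : (K.val : K → E) '' S = Set.range x := hSimg
    rw [e]
  have halg : Algebra.IsAlgebraic (Algebra.adjoin F S) K := by
    rw [← IntermediateField.isAlgebraic_adjoin_iff_top, htop,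
      Algebra.isAlgebraic_iff_isIntegral]
    exact Algebra.isIntegral_of_surjective IntermediateField.topEquiv.surjective
  refine (Algebra.IsAlgebraic.trdeg_le_cardinalMk F S).trans ?_
  have h1 := Cardinal.mk_range_le_lift (f := fun j => (⟨x j, hxK j⟩ : K))
  rw [Cardinal.mk_fintype ι, Cardinal.lift_natCast] at h1
  have h2 : Cardinal.lift.{0} (Cardinal.mk S) = Cardinal.mk S := Cardinal.lift_uzero _
  rw [← h2]
  exact h1

theorem multi_exists_sym {N n : ℕ} (m : Fin (N + 1) →₀ ℕ) (hm : m.degree = n) :
    ∃ J : Sym (Fin (N + 1)) n, Multiset.toFinsupp (J : Multiset (Fin (N + 1))) = m := by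
  refine ⟨⟨Finsupp.toMultiset m, ?_⟩, ?_⟩
  · rw [Finsupp.card_toMultiset, ← hm, Finsupp.degree_eq_sum]
    exact Finsupp.sum_fintype _ _ fun _ => rfl
  · exact Finsupp.toMultiset_toFinsupp m

theorem multi_tower {k₀ L : Type*} [Field k₀] [Field L] [Algebra k₀ L]
    (K : IntermediateField k₀ L) (M : IntermediateField K L) :
    Algebra.trdeg k₀ K + Algebra.trdeg K M = Algebra.trdeg k₀ (M.restrictScalars k₀) := by
  have i1 : FaithfulSMul k₀ K := (faithfulSMul_iff_algebraMap_injective k₀ K).2
    (algebraMap k₀ K).injective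
  have i2 : FaithfulSMul K M := (faithfulSMul_iff_algebraMap_injective K M).2
    (algebraMap K M).injective
  have i3 : IsScalarTower k₀ K M := IsScalarTower.of_algebraMap_eq fun x => rfl
  have h : Algebra.trdeg k₀ K + Algebra.trdeg K M = Algebra.trdeg k₀ M := trdeg_add_eq k₀ K
  exact h

/-- `A i + ∑ j, P i j * H i j` with all coefficients of the `H i j` moving: fix `j i` for all `i`
and put the other coefficients into the constant field. -/
theorem multi {k₀ L : Type*} [Field k₀] [Field L] [Algebra k₀ L] {N r s : ℕ}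
    (d : Fin r → ℕ) (b : Fin r → Fin s → ℕ) (hb : ∀ i j, b i j ≤ d i)
    (A : Fin r → MvPolynomial (Fin (N + 1)) k₀) (hA : ∀ i, (A i).IsHomogeneous (d i))
    (P : Fin r → Fin s → MvPolynomial (Fin (N + 1)) k₀)
    (hP : ∀ i j, (P i j).IsHomogeneous (b i j))
    (H : Fin r → Fin s → MvPolynomial (Fin (N + 1)) L)
    (hH : ∀ i j, (H i j).IsHomogeneous (d i - b i j)) (c : ℕ)
    (hcoef : ((∑ i, ∑ j, (N + (d i - b i j)).choose N : ℕ) : Cardinal) ≤
      Algebra.trdeg k₀ (IntermediateField.adjoin k₀ {z | ∃ i j J, z = coeff J (H i j)}) + c)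
    (S : Set (Fin (N + 1) → L))
    (E : ∀ (k : IntermediateField k₀ L) (j : Fin r → Fin s)
      (A' : Fin r → MvPolynomial (Fin (N + 1)) k), (∀ i, (A' i).IsHomogeneous (d i)) →
      (∀ i, map (algebraMap k₀ L) (A i) + ∑ l, map (algebraMap k₀ L) (P i l) * H i l =
        map (algebraMap k L) (A' i) + map (algebraMap k₀ L) (P i (j i)) * H i (j i)) →
      ((∑ i, (N + (d i - b i (j i))).choose N : ℕ) : Cardinal) ≤ Algebra.trdeg k
        (IntermediateField.adjoin k {z | ∃ i J, z = coeff J (H i (j i))}) + c →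
      {x ∈ S | ∀ i, aeval x (P i (j i)) ≠ 0}.Finite) :
    {x ∈ S | ∀ i, ∃ j, aeval x (P i j) ≠ 0}.Finite := by
  classical
  suffices h : ∀ j : Fin r → Fin s, {x ∈ S | ∀ i, aeval x (P i (j i)) ≠ 0}.Finite by
    refine (Set.finite_iUnion h).subset ?_
    rintro x ⟨hx, hx2⟩
    choose j hj using hx2
    exact Set.mem_iUnion.2 ⟨j, hx, hj⟩
  intro j
  -- the constant field
  set T : Set L := {z | ∃ i l, l ≠ j i ∧ ∃ J, z = coeff J (H i l)} with hT
  set k : IntermediateField k₀ L := IntermediateField.adjoin k₀ T with hk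
  set T' : Set L := {z | ∃ i J, z = coeff J (H i (j i))} with hT'
  -- descent of the other forms
  have hdesc : ∀ i l, l ≠ j i → ∃ Q : MvPolynomial (Fin (N + 1)) k,
      map (algebraMap k L) Q = H i l := by
    intro i l hl
    have h1 : H i l ∈ Set.range (MvPolynomial.map (σ := Fin (N + 1)) (algebraMap k L)) := by
      rw [mem_range_map_iff_coeffs_subset]
      intro z hz
      obtain ⟨J, -, hJ⟩ := mem_coeffs_iff.1 (Finset.mem_coe.1 hz)
      exact ⟨⟨z, IntermediateField.subset_adjoin _ _ ⟨i, l, hl, J, hJ⟩⟩, rfl⟩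
    exact h1
  choose! Q hQ using hdesc
  set A' : Fin r → MvPolynomial (Fin (N + 1)) k := fun i =>
    map (algebraMap k₀ k) (A i) +
      ∑ l ∈ Finset.univ.erase (j i), map (algebraMap k₀ k) (P i l) * Q i l with hA'
  have hmap : ∀ B : MvPolynomial (Fin (N + 1)) k₀,
      map (algebraMap k L) (map (algebraMap k₀ k) B) = map (algebraMap k₀ L) B := by
    intro B
    rw [map_map, ← IsScalarTower.algebraMap_eq]
  have hA'1 : ∀ i, map (algebraMap k L) (A' i) = map (algebraMap k₀ L) (A i) +
      ∑ l ∈ Finset.univ.erase (j i), map (algebraMap k₀ L) (P i l) * H i l := by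
    intro i
    rw [hA']
    simp only [map_add, map_sum, map_mul, hmap]
    congr 1
    refine Finset.sum_congr rfl fun l hl => ?_
    rw [hQ i l (Finset.ne_of_mem_erase hl)]
  have hinj : Function.Injective (algebraMap k L) := (algebraMap k L).injective
  refine E k j A' (fun i => ?_) (fun i => ?_) ?_
  · refine IsHomogeneous.of_map hinj ?_
    rw [hA'1]
    refine ((hA i).map _).add (IsHomogeneous.sum _ _ _ fun l _ => ?_)
    have h1 := ((hP i l).map (algebraMap k₀ L)).mul (hH i l)
    rw [Nat.add_sub_cancel' (hb i l)] at h1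
    exact h1
  · rw [hA'1, ← Finset.sum_erase_add _ _ (Finset.mem_univ (j i)), add_assoc]
  · -- the transcendence degree
    set ι : Type := Σ p : {p : Fin r × Fin s // p.2 ≠ j p.1},
      Sym (Fin (N + 1)) (d p.1.1 - b p.1.1 p.1.2) with hι
    set y : ι → L := fun q => coeff (Multiset.toFinsupp (q.2 : Multiset (Fin (N + 1))))
      (H q.1.1.1 q.1.1.2) with hy
    have hk' : k = IntermediateField.adjoin k₀ (Set.range y) := by
      refine le_antisymm (IntermediateField.adjoin_le_iff.2 ?_)
        (IntermediateField.adjoin_le_iff.2 ?_)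
      · rintro z ⟨i, l, hl, m, rfl⟩
        by_cases h : m.degree = d i - b i l
        · obtain ⟨J, hJ⟩ := multi_exists_sym m h
          refine IntermediateField.subset_adjoin _ _ ⟨⟨⟨(i, l), hl⟩, J⟩, ?_⟩
          change coeff (Multiset.toFinsupp (J : Multiset (Fin (N + 1)))) (H i l) = _
          rw [hJ]
        · rw [(hH i l).coeff_eq_zero h]
          exact zero_mem _
      · rintro z ⟨q, rfl⟩
        exact IntermediateField.subset_adjoin _ _ ⟨q.1.1.1, q.1.1.2, q.1.2, _, rfl⟩
    have hcard : Fintype.card ι =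
        ∑ i, ∑ l ∈ Finset.univ.erase (j i), (N + (d i - b i l)).choose N := by
      change Fintype.card (Σ p : {p : Fin r × Fin s // p.2 ≠ j p.1},
        Sym (Fin (N + 1)) (d p.1.1 - b p.1.1 p.1.2)) = _
      rw [Fintype.card_sigma]
      have h1 : ∀ p : {p : Fin r × Fin s // p.2 ≠ j p.1},
          Fintype.card (Sym (Fin (N + 1)) (d p.1.1 - b p.1.1 p.1.2)) =
            (fun p : Fin r × Fin s => (N + (d p.1 - b p.1 p.2)).choose N) p.1 := by
        intro p
        rw [Sym.card_sym_eq_choose, Fintype.card_fin]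
        have h : N + 1 + (d p.1.1 - b p.1.1 p.1.2) - 1 = N + (d p.1.1 - b p.1.1 p.1.2) := by
          omega
        rw [h]
        exact Nat.choose_symm_add.symm
      rw [Finset.sum_congr rfl fun p _ => h1 p]
      rw [← Finset.sum_subtype (Finset.univ.filter fun p : Fin r × Fin s => p.2 ≠ j p.1)
        (by simp) (fun p : Fin r × Fin s => (N + (d p.1 - b p.1 p.2)).choose N)]
      rw [Finset.sum_filter, Fintype.sum_prod_type]
      refine Finset.sum_congr rfl fun i _ => ?_
      rw [← Finset.sum_filter]
      refine Finset.sum_congr ?_ fun l _ => rfl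
      ext l
      simp
    have hk1 : Algebra.trdeg k₀ k ≤ (Fintype.card ι : Cardinal) := by
      rw [hk']
      exact multi_trdeg_le y
    have hunion : ({z | ∃ i l J, z = coeff J (H i l)} : Set L) = T ∪ T' := by
      ext z
      constructor
      · rintro ⟨i, l, J, rfl⟩
        by_cases hl : l = j i
        · subst hl
          exact Or.inr ⟨i, J, rfl⟩
        · exact Or.inl ⟨i, l, hl, J, rfl⟩
      · rintro (⟨i, l, -, J, rfl⟩ | ⟨i, J, rfl⟩)
        · exact ⟨i, l, J, rfl⟩
        · exact ⟨i, j i, J, rfl⟩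
    rw [hunion, ← IntermediateField.adjoin_adjoin_left] at hcoef
    have htr : Algebra.trdeg k₀ k + Algebra.trdeg k (IntermediateField.adjoin k T') =
        Algebra.trdeg k₀ ((IntermediateField.adjoin k T').restrictScalars k₀) :=
      multi_tower k (IntermediateField.adjoin k T')
    rw [← htr] at hcoef
    have hsum : ∑ i, ∑ l, (N + (d i - b i l)).choose N =
        Fintype.card ι + ∑ i, (N + (d i - b i (j i))).choose N := by
      rw [hcard, ← Finset.sum_add_distrib]
      refine Finset.sum_congr rfl fun i _ => ?_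
      rw [Finset.sum_erase_add _ _ (Finset.mem_univ (j i))]
    rw [hsum, Nat.cast_add] at hcoef
    have h3 : (Fintype.card ι : Cardinal) + ((∑ i, (N + (d i - b i (j i))).choose N : ℕ) : Cardinal)
        ≤ (Fintype.card ι : Cardinal) +
          (Algebra.trdeg k (IntermediateField.adjoin k T') + c) := by
      refine hcoef.trans ?_
      rw [add_assoc]
      exact add_le_add_left hk1 _
    exact (Cardinal.add_le_add_iff_of_lt_aleph0 (Cardinal.natCast_lt_aleph0)).1
      (by rw [add_comm _ (Fintype.card ι : Cardinal), add_comm _ (Fintype.card ι : Cardinal)]; exact h3)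

end Pool.Agent.Helper8.LV
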