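import Pool.Agent.Helper8.LV.Final
import Pool.Agent.Helper8.LV.Multi
import Pool.Agent.Helper8.LG.Poly

/-! # LV-ENG: the engine in terms of polynomials -/

set_option autoImplicit false

open MvPolynomial

namespace Pool.Agent.Helper8.LV

open scoped BigOperators
open Pool.Agent.Helper8.LG

/-- the coefficients of `A + P H` -/
theorem cf_add_mul {L : Type*} [Field L] {N d b q : ℕ} (hdb : d = b + q)
    (F A P H : MvPolynomial (Fin (N + 1)) L) (hP : P.IsHomogeneous b) (hH : H.IsHomogeneous q)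
    (h : F = A + P * H) (J : Sym (Fin (N + 1)) d) :
    cf d F J = cf d A J + ∑ J' : Sym (Fin (N + 1)) b, ∑ J'' : Sym (Fin (N + 1)) q,
      if (J' : Multiset (Fin (N + 1))) + (J'' : Multiset (Fin (N + 1))) = (J : Multiset _)
        then cf b P J' * cf q H J'' else 0 := by
  classical
  have h0 : cf d F J = cf d A J +
      coeff (Multiset.toFinsupp (J : Multiset (Fin (N + 1)))) (P * H) := by
    rw [h, cf, coeff_add]
    rfl
  rw [h0, coeff_mul]
  congr 1
  symm
  rw [← Finset.sum_product', ← Finset.sum_filter]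
  refine Finset.sum_bij_ne_zero (fun p _ _ =>
    (Multiset.toFinsupp (p.1 : Multiset (Fin (N + 1))),
      Multiset.toFinsupp (p.2 : Multiset (Fin (N + 1))))) ?_ ?_ ?_ ?_
  · intro p hp _
    rw [Finset.mem_filter] at hp
    rw [Finset.HasAntidiagonal.mem_antidiagonal, ← map_add, hp.2]
  · intro p _ _ p' _ _ hpp
    rw [Prod.mk.injEq] at hpp
    exact Prod.ext (poly_toFinsupp_inj hpp.1) (poly_toFinsupp_inj hpp.2)
  · rintro ⟨m, n⟩ hmn hne
    rw [Finset.HasAntidiagonal.mem_antidiagonal] at hmn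
    have h1 : coeff m P ≠ 0 := left_ne_zero_of_mul hne
    have h2 : coeff n H ≠ 0 := right_ne_zero_of_mul hne
    have h3 : m.degree = b := (DFunLike.congr_fun Finsupp.degree_eq_weight_one m).trans (hP h1)
    have h4 : n.degree = q := (DFunLike.congr_fun Finsupp.degree_eq_weight_one n).trans (hH h2)
    obtain ⟨J', hJ'⟩ := poly_exists_sym m h3
    obtain ⟨J'', hJ''⟩ := poly_exists_sym n h4
    refine ⟨(J', J''), ?_, ?_, ?_⟩
    · rw [Finset.mem_filter]
      refine ⟨Finset.mem_product.2 ⟨Finset.mem_univ _, Finset.mem_univ _⟩, ?_⟩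
      apply Multiset.toFinsupp.injective
      rw [map_add, hJ', hJ'']
      exact hmn
    · change coeff _ P * coeff _ H ≠ 0
      rw [hJ', hJ'']
      exact hne
    · exact Prod.ext hJ' hJ''
  · intro p _ _
    rfl

/-- the family of the coefficients -/
theorem fam_poly {k L : Type*} [Field k] [Field L] [Algebra k L] {N r : ℕ} (d b q : Fin r → ℕ)
    (hdb : ∀ i, d i = b i + q i) (F : Fin r → MvPolynomial (Fin (N + 1)) L)
    (A P : Fin r → MvPolynomial (Fin (N + 1)) k) (H : Fin r → MvPolynomial (Fin (N + 1)) L)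
    (hP : ∀ i, (P i).IsHomogeneous (b i)) (hH : ∀ i, (H i).IsHomogeneous (q i))
    (h : ∀ i, F i = map (algebraMap k L) (A i) + map (algebraMap k L) (P i) * H i) :
    Fam d b q (fun i => cf (d i) (F i)) (fun i => cf (d i) (map (algebraMap k L) (A i)))
      (fun i => cf (b i) (map (algebraMap k L) (P i))) (fun i => cf (q i) (H i)) where
  deg := hdb
  eq := fun i J => cf_add_mul (hdb i) _ _ _ _ ((hP i).map _) (hH i) (h i) J

theorem over_poly {k L : Type*} [Field k] [Field L] [Algebra k L] {N r : ℕ} (d : Fin r → ℕ)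
    (A : Fin r → MvPolynomial (Fin (N + 1)) k) :
    Over k fun i => cf (d i) (map (algebraMap k L) (A i)) := fun i J =>
  ⟨coeff (Multiset.toFinsupp (J : Multiset (Fin (N + 1)))) (A i), (coeff_map _ _ _).symm⟩

theorem form_poly {k L : Type*} [Field k] [Field L] [Algebra k L] {N n : ℕ}
    (P : MvPolynomial (Fin (N + 1)) k) (hP : P.IsHomogeneous n) (x : Fin (N + 1) → L) :
    form (cf n (map (algebraMap k L) P)) x = aeval x P := by
  rw [form_cf _ (hP.map _), aeval_def, eval_map]

/-- the field generated by the coefficients -/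
theorem adjoin_poly (k : Type*) {L : Type*} [Field k] [Field L] [Algebra k L] {N r : ℕ}
    (q : Fin r → ℕ) (H : Fin r → MvPolynomial (Fin (N + 1)) L)
    (hH : ∀ i, (H i).IsHomogeneous (q i)) :
    IntermediateField.adjoin k {z | ∃ i J, z = coeff J (H i)} =
      IntermediateField.adjoin k (Set.range fun p : Ix (Fin (N + 1)) q => cf (q p.1) (H p.1) p.2) :=
  coeffField_eq k q H hH

theorem trdeg_mono' {k₀ L : Type*} [Field k₀] [Field L] [Algebra k₀ L]
    (k : IntermediateField k₀ L) {X : Type*} [Finite X] (x : X → L) :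
    Algebra.trdeg k (IntermediateField.adjoin k (Set.range x)) ≤
      Algebra.trdeg k₀ (IntermediateField.adjoin k₀ (Set.range x)) := by
  classical
  haveI := Fintype.ofFinite X
  obtain ⟨T, hT, hc⟩ := red_subfamily (k := k) x
  rw [← hc]
  have h1 : AlgebraicIndependent k₀ (fun p : T => x p) :=
    hT.restrictScalars (algebraMap k₀ k).injective
  have h2 : AlgebraicIndependent k₀ (fun p : T =>
      (⟨x p, IntermediateField.subset_adjoin _ _ ⟨p, rfl⟩⟩ :
        IntermediateField.adjoin k₀ (Set.range x))) :=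
    (AlgHom.algebraicIndependent_iff (IntermediateField.adjoin k₀ (Set.range x)).val
      (IntermediateField.adjoin k₀ (Set.range x)).val.injective).1 h1
  have h3 := h2.lift_cardinalMk_le_trdeg
  rw [Cardinal.mk_coe_finset, Cardinal.lift_natCast, Cardinal.nat_le_lift_iff] at h3
  exact h3

theorem fg_tower {k₀ L : Type*} [Field k₀] [Field L] [Algebra k₀ L] (k : IntermediateField k₀ L)
    (h : (⊤ : IntermediateField k₀ L).FG) : (⊤ : IntermediateField k L).FG := by
  rw [IntermediateField.fg_top_iff] at h ⊢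
  exact Algebra.EssFiniteType.of_comp k₀ k L

theorem subalgebra_tower {k₀ L : Type*} [Field k₀] [Field L] [Algebra k₀ L]
    (k : IntermediateField k₀ L) (R : Subalgebra k₀ L) (hR : R.FG) :
    ∃ R' : Subalgebra k L, R'.FG ∧ ∀ f ∈ R, f ∈ R' := by
  obtain ⟨s, hs⟩ := hR
  refine ⟨Algebra.adjoin k (s : Set L), ⟨s, rfl⟩, ?_⟩
  intro f hf
  rw [← hs] at hf
  induction hf using Algebra.adjoin_induction with
  | mem x hx => exact Algebra.subset_adjoin hx
  | algebraMap r =>
    have h1 : algebraMap k₀ L r = algebraMap k L (algebraMap k₀ k r) :=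
      IsScalarTower.algebraMap_apply k₀ k L r
    rw [h1]
    exact Subalgebra.algebraMap_mem _ _
  | add x y _ _ hx hy => exact add_mem hx hy
  | mul x y _ _ hx hy => exact mul_mem hx hy

/-- the G engine: polynomials, several multipliers, normalised points -/
theorem eng_G {k₀ L : Type*} [Field k₀] [Field L] [CharZero L] [Algebra k₀ L]
    (hfg : (⊤ : IntermediateField k₀ L).FG) {N r s : ℕ} (d q m : Fin r → ℕ)
    (b : Fin r → Fin s → ℕ) (hq : ∀ i, 0 < q i) (hbq : ∀ i j, b i j + q i ≤ d i)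
    (F : Fin r → MvPolynomial (Fin (N + 1)) L)
    (A : Fin r → MvPolynomial (Fin (N + 1)) k₀) (hA : ∀ i, (A i).IsHomogeneous (d i))
    (P : Fin r → Fin s → MvPolynomial (Fin (N + 1)) k₀)
    (hP : ∀ i j, (P i j).IsHomogeneous (b i j))
    (H : Fin r → Fin s → MvPolynomial (Fin (N + 1)) L)
    (hH : ∀ i j, (H i j).IsHomogeneous (d i - b i j))
    (hFA : ∀ i, F i = map (algebraMap k₀ L) (A i) + ∑ j, map (algebraMap k₀ L) (P i j) * H i j)
    (w c : ℕ)
    (hcoef : ((∑ i, ∑ j, (N + (d i - b i j)).choose N : ℕ) : Cardinal) ≤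
      Algebra.trdeg k₀ (IntermediateField.adjoin k₀ {z | ∃ i j J, z = coeff J (H i j)}) + c)
    (Z C : Finset (Fin r)) (hZC : Disjoint Z C) (hm : ∀ i ∈ C, m i ∣ d i)
    (hnum : 2 * w + 2 + c + ∑ i ∈ C, d i / m i ≤ ∑ i, q i + Z.card)
    (i₀ : Fin (N + 1)) (R : Subalgebra k₀ L) (hR : R.FG) :
    {x : Fin (N + 1) → L | x i₀ = 1 ∧
      (Algebra.trdeg k₀ (IntermediateField.adjoin k₀ (Set.range x)) ≤ w ∧
        (∀ i, ∃ j, aeval x (P i j) ≠ 0) ∧ (∀ i ∈ Z, eval x (F i) = 0) ∧
        ∀ i ∈ C, ∃ y : L, y ^ m i = eval x (F i)) ∧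
      ∀ i ∈ (Z ∪ C)ᶜ, eval x (F i) ≠ 0 ∧
        ∀ J : Sym (Fin (N + 1)) (d i), mon x J / eval x (F i) ∈ R}.Finite := by
  classical
  have hdF : ∀ i, (∃ j : Fin s, True) → (F i).IsHomogeneous (d i) := by
    rintro i ⟨j, -⟩
    rw [hFA i]
    refine ((hA i).map _).add (IsHomogeneous.sum _ _ _ fun j _ => ?_)
    have h1 := ((hP i j).map (algebraMap k₀ L)).mul (hH i j)
    rwa [Nat.add_sub_cancel' ((Nat.le_add_right _ _).trans (hbq i j))] at h1
  have hmulti := multi d b (fun i j => (Nat.le_add_right _ _).trans (hbq i j)) A hA P hP H hH c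
    hcoef {x : Fin (N + 1) → L | x i₀ = 1 ∧
      (Algebra.trdeg k₀ (IntermediateField.adjoin k₀ (Set.range x)) ≤ w ∧
        (∀ i ∈ Z, eval x (F i) = 0) ∧ ∀ i ∈ C, ∃ y : L, y ^ m i = eval x (F i)) ∧
      ∀ i ∈ (Z ∪ C)ᶜ, eval x (F i) ≠ 0 ∧
        ∀ J : Sym (Fin (N + 1)) (d i), mon x J / eval x (F i) ∈ R} ?_
  · refine hmulti.subset ?_
    rintro x ⟨h1, ⟨h2, h3, h4, h5⟩, h6⟩
    exact ⟨⟨h1, ⟨h2, h4, h5⟩, h6⟩, h3⟩
  intro k j A' hA' hFA' hcoef'
  -- the ring over `k`
  have hkfg : (⊤ : IntermediateField k L).FG := fg_tower k hfg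
  obtain ⟨R', hR', hRR'⟩ := subalgebra_tower k R hR
  -- the data
  obtain ⟨q', hq'⟩ : ∃ q' : Fin r → ℕ, q' = fun i => d i - b i (j i) := ⟨_, rfl⟩
  have hdb : ∀ i, d i = b i (j i) + q' i := by
    intro i
    have := hbq i (j i)
    rw [hq']
    simp only
    omega
  have hqq : ∀ i, q i ≤ q' i := by
    intro i
    have := hbq i (j i)
    rw [hq']
    simp only
    omega
  have hFam : Fam d (fun i => b i (j i)) q' (fun i => cf (d i) (F i))
      (fun i => cf (d i) (map (algebraMap k L) (A' i)))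
      (fun i => cf (b i (j i)) (map (algebraMap k L) (map (algebraMap k₀ k) (P i (j i)))))
      fun i => cf (q' i) (H i (j i)) := by
    refine fam_poly d (fun i => b i (j i)) q' hdb F A' (fun i => map (algebraMap k₀ k) (P i (j i)))
      (fun i => H i (j i)) (fun i => (hP i (j i)).map _) (fun i => ?_) (fun i => ?_)
    · rw [hq']
      exact hH i (j i)
    · rw [hFA i, hFA' i, map_map, ← IsScalarTower.algebraMap_eq]
  have hform : ∀ (x : Fin (N + 1) → L) i, form (cf (d i) (F i)) x = eval x (F i) := fun x i =>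
    form_cf _ (hdF i ⟨j i, trivial⟩) x
  have hformP : ∀ (x : Fin (N + 1) → L) i,
      form (cf (b i (j i)) (map (algebraMap k L) (map (algebraMap k₀ k) (P i (j i))))) x
        = aeval x (P i (j i)) := by
    intro x i
    rw [form_poly _ ((hP i (j i)).map _), aeval_map_algebraMap]
  obtain ⟨T, hT⟩ : ∃ T : Finset (Fin r) → Set (Fin (N + 1) → L), T = fun C₀ => {x | x i₀ = 1 ∧
      Algebra.trdeg k (IntermediateField.adjoin k (Set.range x)) ≤ w ∧
      (∀ i, form (cf (b i (j i)) (map (algebraMap k L)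
        (map (algebraMap k₀ k) (P i (j i))))) x ≠ 0) ∧
      (∀ i ∈ Z ∪ C₀, form (cf (d i) (F i)) x = 0) ∧
      (∀ i ∉ Z ∪ C₀, form (cf (d i) (F i)) x ≠ 0) ∧
      (∀ i ∈ C \ C₀, ∃ y : L, y ^ m i = form (cf (d i) (F i)) x) ∧
      ∀ i ∉ Z ∪ C₀, i ∉ C \ C₀ → ∀ J : Sym (Fin (N + 1)) (d i),
        IsIntegral R' (mon x J / form (cf (d i) (F i)) x)} := ⟨_, rfl⟩
  have hTfin : ∀ C₀, (T C₀).Finite := by
    intro C₀
    rw [hT]
    refine final_aux hkfg d (fun i => b i (j i)) q'
      (fun i => if i ∈ C \ C₀ then d i / m i else 0) m (fun i => cf (d i) (F i)) _ _ _ hFam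
      (over_poly d A') (over_poly (fun i => b i (j i)) _) w c ?_ (Z ∪ C₀) (C \ C₀) i₀ ?_ R' hR'
    · rw [card_Ix, ← adjoin_poly k q' (fun i => H i (j i)) (fun i => ?_)]
      · rw [hq']
        exact hcoef'
      · rw [hq']
        exact hH i (j i)
    · refine ⟨fun i => ?_, fun i => (hq i).trans_le (hqq i), ?_, ?_, ?_, ?_⟩
      · have := hq i
        have := hqq i
        rw [hdb i]
        omega
      · intro i hi hi'
        rw [Finset.mem_sdiff] at hi
        rcases Finset.mem_union.1 hi' with h | h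
        · exact Finset.disjoint_left.1 hZC h hi.1
        · exact hi.2 h
      · intro i hi
        rw [if_pos hi]
        exact (Nat.mul_div_cancel' (hm i (Finset.mem_sdiff.1 hi).1)).symm
      · intro i hi
        exact if_neg hi
      · have h1 : ∑ i, (if i ∈ C \ C₀ then d i / m i else 0) ≤ ∑ i ∈ C, d i / m i := by
          rw [← Finset.sum_filter]
          refine Finset.sum_le_sum_of_subset (fun i hi => ?_)
          exact (Finset.mem_sdiff.1 (Finset.mem_filter.1 hi).2).1
        have h2 : Z.card ≤ (Z ∪ C₀).card := Finset.card_le_card Finset.subset_union_left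
        have h3 : ∑ i, q i ≤ ∑ i, q' i := Finset.sum_le_sum fun i _ => hqq i
        omega
  refine (Set.finite_iUnion hTfin).subset ?_
  rintro x ⟨⟨h1, ⟨h2, h3, h4⟩, h5⟩, h6⟩
  rw [Set.mem_iUnion]
  refine ⟨C.filter (fun i => eval x (F i) = 0), ?_⟩
  rw [hT]
  have hnz : ∀ i ∉ Z ∪ C.filter (fun i => eval x (F i) = 0), eval x (F i) ≠ 0 := by
    intro i hi
    rw [Finset.mem_union, Finset.mem_filter] at hi
    push Not at hi
    by_cases hiC : i ∈ C
    · exact hi.2 hiC
    · refine (h5 i ?_).1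
      rw [Finset.mem_compl, Finset.mem_union]
      push Not
      exact ⟨hi.1, hiC⟩
  refine ⟨h1, (trdeg_mono' k _).trans h2, ?_, ?_, ?_, ?_, ?_⟩
  · intro i
    rw [hformP]
    exact h6 i
  · intro i hi
    rw [hform]
    rcases Finset.mem_union.1 hi with h | h
    · exact h3 i h
    · exact (Finset.mem_filter.1 h).2
  · intro i hi
    rw [hform]
    exact hnz i hi
  · intro i hi
    rw [hform]
    exact h4 i (Finset.mem_sdiff.1 hi).1
  · intro i hi hi' J
    have hiZ : i ∉ Z := fun h => hi (Finset.mem_union_left _ h)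
    have hiC : i ∉ C := by
      intro h
      apply hi'
      rw [Finset.mem_sdiff]
      exact ⟨h, fun h' => hi (Finset.mem_union_right _ h')⟩
    rw [hform]
    have h7 := (h5 i (by
      rw [Finset.mem_compl, Finset.mem_union]
      push Not
      exact ⟨hiZ, hiC⟩)).2 J
    exact isIntegral_algebraMap (x := (⟨_, hRR' _ h7⟩ : R'))

end Pool.Agent.Helper8.LV
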