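import Pool.Agent.Helper8.LG.SDefs
import Pool.Agent.Helper8.LG.Poly

/-! # LV-PTS: from normalised points over `M` to projective points over `L` -/

set_option autoImplicit false

open MvPolynomial

namespace Pool.Agent.Helper8.LV

open scoped BigOperators LinearAlgebra.Projectivization
open Pool.Agent.Helper8.LG

private theorem pts_mon_smul {M : Type*} [Field M] {N n : ℕ} (c : M) (x : Fin (N + 1) → M)
    (J : Sym (Fin (N + 1)) n) : mon (fun i => c * x i) J = c ^ n * mon x J := by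
  rw [mon, mon, Multiset.prod_map_mul, Multiset.map_const', Multiset.prod_replicate, Sym.card_coe]

private theorem pts_mon_map {L M : Type*} [Field L] [Field M] [Algebra L M] {N n : ℕ}
    (x : Fin (N + 1) → L) (J : Sym (Fin (N + 1)) n) :
    mon (fun i => algebraMap L M (x i)) J = algebraMap L M (mon x J) := by
  rw [mon, mon, map_multiset_prod, Multiset.map_map]
  rfl

private theorem pts_eval_smul {M : Type*} [Field M] {N n : ℕ}
    (F : MvPolynomial (Fin (N + 1)) M) (hF : F.IsHomogeneous n) (c : M)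
    (x : Fin (N + 1) → M) : eval (fun i => c * x i) F = c ^ n * eval x F := by
  rw [← form_cf F hF, ← form_cf F hF, form, form, Finset.mul_sum]
  refine Finset.sum_congr rfl (fun J _ => ?_)
  rw [pts_mon_smul]
  ring

theorem points {κ L M : Type*} [CommRing κ] [Field L] [Field M] [Algebra κ M] [Algebra L M]
    {N r : ℕ} (d : Fin r → ℕ) (F : Fin r → MvPolynomial (Fin (N + 1)) L)
    (hF : ∀ i, (F i).IsHomogeneous (d i)) (g : GL (Fin (N + 1)) M) (W : Finset (Fin r))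
    (Q : (Fin (N + 1) → M) → Prop)
    (hfin : ∀ (i₀ : Fin (N + 1)) (A : Subalgebra κ M), A.FG →
      {y : Fin (N + 1) → M | y i₀ = 1 ∧ Q y ∧
        ∀ i ∈ W, eval y (subst (g : Matrix _ _ M) (F i)) ≠ 0 ∧ ∀ J : Sym (Fin (N + 1)) (d i),
          mon y J / eval y (subst (g : Matrix _ _ M) (F i)) ∈ A}.Finite)
    (A : Subalgebra κ M) (hA : A.FG) :
    {x : ℙ L (Fin (N + 1) → L) |
      (∀ i₀, (g⁻¹ : GL (Fin (N + 1)) M).1.mulVec (fun l => algebraMap L M (x.rep l)) i₀ ≠ 0 →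
        Q fun i => (g⁻¹ : GL (Fin (N + 1)) M).1.mulVec (fun l => algebraMap L M (x.rep l)) i /
          (g⁻¹ : GL (Fin (N + 1)) M).1.mulVec (fun l => algebraMap L M (x.rep l)) i₀) ∧
      ∀ i ∈ W, eval x.rep (F i) ≠ 0 ∧ ∀ J : Sym (Fin (N + 1)) (d i),
        algebraMap L M (mon x.rep J / eval x.rep (F i)) ∈ A}.Finite := by
  classical
  obtain ⟨h, hh⟩ : ∃ h : Matrix (Fin (N + 1)) (Fin (N + 1)) M,
      h = (g⁻¹ : GL (Fin (N + 1)) M).1 := ⟨_, rfl⟩
  have hgh : (g : Matrix (Fin (N + 1)) (Fin (N + 1)) M) * h = 1 := by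
    rw [hh]; exact Units.mul_inv g
  rw [← hh]
  -- the coordinates over `M`
  obtain ⟨ξ, hξ⟩ : ∃ ξ : ℙ L (Fin (N + 1) → L) → Fin (N + 1) → M,
      ξ = fun x l => algebraMap L M (x.rep l) := ⟨_, rfl⟩
  have hξ' : ∀ x : ℙ L (Fin (N + 1) → L), (fun l => algebraMap L M (x.rep l)) = ξ x := by
    intro x; rw [hξ]
  have hgy : ∀ x, (g : Matrix (Fin (N + 1)) (Fin (N + 1)) M).mulVec (h.mulVec (ξ x)) = ξ x := by
    intro x
    rw [Matrix.mulVec_mulVec, hgh, Matrix.one_mulVec]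
  have hy0 : ∀ x, ∃ i₀, h.mulVec (ξ x) i₀ ≠ 0 := by
    intro x
    by_contra hne
    push Not at hne
    have h1 := hgy x
    rw [show h.mulVec (ξ x) = 0 from funext hne, Matrix.mulVec_zero, hξ] at h1
    refine x.rep_nonzero (funext fun i => ?_)
    have h2 := congrFun h1 i
    simp only [Pi.zero_apply] at h2 ⊢
    exact (map_eq_zero_iff _ (algebraMap L M).injective).1 h2.symm
  -- the new polynomials
  have hF'h : ∀ i, (subst (g : Matrix _ _ M) (F i)).IsHomogeneous (d i) :=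
    fun i => subst_hom _ _ (hF i)
  have hev : ∀ x i, eval (h.mulVec (ξ x)) (subst (g : Matrix _ _ M) (F i))
      = algebraMap L M (eval x.rep (F i)) := by
    intro x i
    rw [eval_subst, hgy, hξ]
    simp only
    rw [aeval_def]
    exact (eval₂_comp_left (algebraMap L M) (RingHom.id L) x.rep (F i)).symm
  -- the new algebra
  obtain ⟨A', hA'⟩ : ∃ A' : Subalgebra κ M,
      A' = A ⊔ Algebra.adjoin κ (Set.range fun p : Fin (N + 1) × Fin (N + 1) => h p.1 p.2) :=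
    ⟨_, rfl⟩
  have hAA' : A ≤ A' := by rw [hA']; exact le_sup_left
  have hhA' : ∀ i j, h i j ∈ A' := by
    intro i j
    rw [hA']
    exact (le_sup_right : _ ≤ A ⊔ Algebra.adjoin κ (Set.range fun p : Fin (N + 1) ×
      Fin (N + 1) => h p.1 p.2)) (Algebra.subset_adjoin ⟨(i, j), rfl⟩)
  have hA'fg : A'.FG := by
    rw [hA']
    refine hA.sup ?_
    have h1 := Subalgebra.fg_adjoin_finset (R := κ) (A := M)
      (Finset.univ.image fun p : Fin (N + 1) × Fin (N + 1) => h p.1 p.2)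
    rwa [Finset.coe_image, Finset.coe_univ, Set.image_univ] at h1
  simp only [hξ']
  -- the normalised points
  obtain ⟨S, hS⟩ : ∃ S : Fin (N + 1) → Set (Fin (N + 1) → M),
      S = fun i₀ => {y : Fin (N + 1) → M | y i₀ = 1 ∧ Q y ∧
        ∀ i ∈ W, eval y (subst (g : Matrix _ _ M) (F i)) ≠ 0 ∧ ∀ J : Sym (Fin (N + 1)) (d i),
          mon y J / eval y (subst (g : Matrix _ _ M) (F i)) ∈ A'} := ⟨_, rfl⟩
  have hSf : ∀ i₀, (S i₀).Finite := by
    intro i₀; rw [hS]; exact hfin i₀ A' hA'fg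
  refine Set.Finite.subset (s := ⋃ i₀ : Fin (N + 1), {x : ℙ L (Fin (N + 1) → L) |
    h.mulVec (ξ x) i₀ ≠ 0 ∧ (fun i => h.mulVec (ξ x) i / h.mulVec (ξ x) i₀) ∈ S i₀}) ?_ ?_
  · refine Set.finite_iUnion (fun i₀ => ?_)
    refine Set.Finite.of_injOn (f := fun x : ℙ L (Fin (N + 1) → L) =>
      fun i => h.mulVec (ξ x) i / h.mulVec (ξ x) i₀) (fun x hx => hx.2) ?_ (hSf i₀)
    rintro x ⟨hx, -⟩ x' ⟨hx', -⟩ hxx
    simp only at hxx
    -- `c' • h ξ' = h ξ`
    obtain ⟨c', hc'⟩ : ∃ c' : M, c' • h.mulVec (ξ x') = h.mulVec (ξ x) := by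
      refine ⟨h.mulVec (ξ x) i₀ / h.mulVec (ξ x') i₀, funext fun i => ?_⟩
      have h1 : h.mulVec (ξ x) i / h.mulVec (ξ x) i₀
        = h.mulVec (ξ x') i / h.mulVec (ξ x') i₀ := congrFun hxx i
      rw [Pi.smul_apply, smul_eq_mul, div_mul_eq_mul_div, mul_div_assoc, ← h1,
        mul_div_cancel₀ _ hx]
    have hc1 : ∀ i, c' * algebraMap L M (x'.rep i) = algebraMap L M (x.rep i) := by
      have h1 := congrArg ((g : Matrix (Fin (N + 1)) (Fin (N + 1)) M).mulVec) hc'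
      rw [Matrix.mulVec_smul, hgy, hgy, hξ] at h1
      intro i
      exact congrFun h1 i
    obtain ⟨i₁, hi₁⟩ : ∃ i₁, x'.rep i₁ ≠ 0 := by
      by_contra hne
      push Not at hne
      exact x'.rep_nonzero (funext hne)
    have hi₁' : algebraMap L M (x'.rep i₁) ≠ 0 :=
      (map_ne_zero_iff _ (algebraMap L M).injective).2 hi₁
    rw [← x.mk_rep, ← x'.mk_rep, Projectivization.mk_eq_mk_iff']
    refine ⟨x.rep i₁ / x'.rep i₁, ?_⟩
    funext i
    apply (algebraMap L M).injective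
    rw [Pi.smul_apply, smul_eq_mul, map_mul, map_div₀, ← hc1 i₁, ← hc1 i,
      mul_div_assoc, div_self hi₁', mul_one]
  · rintro x ⟨h1, h2⟩
    obtain ⟨i₀, hi₀⟩ := hy0 x
    rw [Set.mem_iUnion]
    refine ⟨i₀, hi₀, ?_⟩
    have hu0 : (h.mulVec (ξ x) i₀)⁻¹ ≠ 0 := inv_ne_zero hi₀
    have hrep : (fun i => h.mulVec (ξ x) i / h.mulVec (ξ x) i₀)
        = fun i => (h.mulVec (ξ x) i₀)⁻¹ * h.mulVec (ξ x) i := by
      funext i
      rw [div_eq_mul_inv, mul_comm]
    have hevφ : ∀ i, eval (fun i => h.mulVec (ξ x) i / h.mulVec (ξ x) i₀)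
        (subst (g : Matrix _ _ M) (F i))
        = (h.mulVec (ξ x) i₀)⁻¹ ^ d i * algebraMap L M (eval x.rep (F i)) := by
      intro i
      rw [hrep, pts_eval_smul _ (hF'h i), hev]
    rw [hS]
    refine ⟨div_self hi₀, h1 i₀ hi₀, fun i hi => ?_⟩
    obtain ⟨h5, h6⟩ := h2 i hi
    have hud : (h.mulVec (ξ x) i₀)⁻¹ ^ d i ≠ 0 := pow_ne_zero _ hu0
    refine ⟨?_, fun J => ?_⟩
    · rw [hevφ]
      exact mul_ne_zero hud ((map_ne_zero_iff _ (algebraMap L M).injective).2 h5)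
    · obtain ⟨b, hb, hb'⟩ := mon_mulVec h A'.toSubring hhA' J
      have h7 : mon (fun i => h.mulVec (ξ x) i / h.mulVec (ξ x) i₀) J
          / eval (fun i => h.mulVec (ξ x) i / h.mulVec (ξ x) i₀) (subst (g : Matrix _ _ M) (F i))
          = ∑ J', b J' * algebraMap L M (mon x.rep J' / eval x.rep (F i)) := by
        rw [hevφ, hrep, pts_mon_smul, mul_div_mul_left _ _ hud, hb' (ξ x), Finset.sum_div]
        refine Finset.sum_congr rfl (fun J' _ => ?_)
        rw [map_div₀, hξ]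
        simp only
        rw [pts_mon_map, mul_div_assoc]
      rw [h7]
      exact A'.sum_mem fun J' _ => A'.mul_mem (hb J') (hAA' (h6 J'))

end Pool.Agent.Helper8.LV
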