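import Pool.Agent.Helper8.LV.SDefs
import Pool.Agent.Helper8.LV.EngG
import Pool.Agent.Helper8.LV.EngA
import Pool.Agent.Helper8.LV.EngB
import Pool.Agent.Helper8.LV.Points
import Pool.Agent.Helper8.LV.WrapCore
import Pool.Agent.Helper10.LB.SecZ
import Pool.Agent.Helper8.LG.Wrap

/-! # LV-MAIN: generic members of linear systems, over schemes -/

set_option autoImplicit false

open AlgebraicGeometry CategoryTheory CategoryTheory.Limits MvPolynomial

namespace Pool.Agent.Helper8.LV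

open scoped BigOperators LinearAlgebra.Projectivization
open Pool.Agent.Helper8.LG hiding coeffField
open Pool.Agent.Helper10.LB

attribute [local instance] MvPolynomial.gradedAlgebra

universe u v

/-- the conditions on a vector `x` of coordinates over `K` -/
def CondX {k₀ K M : Type*} [Field k₀] [Field K] [Field M] [Algebra k₀ M] [Algebra K M]
    {N r n : ℕ} (m : Fin r → ℕ) (F : Fin r → MvPolynomial (Fin (N + 1)) K)
    (g : GL (Fin (N + 1)) M) (P : Fin r → Fin n → MvPolynomial (Fin (N + 1)) k₀)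
    (Z C : Finset (Fin r)) (w : ℕ) (x : Fin (N + 1) → K) : Prop :=
  (∀ i, ∃ j, aeval ((g⁻¹ : GL (Fin (N + 1)) M).1.mulVec fun l => algebraMap K M (x l))
      (P i j) ≠ 0) ∧
    Algebra.trdeg k₀ (ratioField k₀
      ((g⁻¹ : GL (Fin (N + 1)) M).1.mulVec fun l => algebraMap K M (x l))) ≤ w ∧
    (∀ i ∈ Z, eval x (F i) = 0) ∧ ∀ i ∈ C, ∃ y : K, y ^ m i = eval x (F i)

/-- the conditions on a normalised vector `y` over `M` -/
def CondY {k₀ M : Type*} [Field k₀] [Field M] [Algebra k₀ M]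
    {N r n : ℕ} (m : Fin r → ℕ) (F : Fin r → MvPolynomial (Fin (N + 1)) M)
    (P : Fin r → Fin n → MvPolynomial (Fin (N + 1)) k₀)
    (Z C : Finset (Fin r)) (w : ℕ) (y : Fin (N + 1) → M) : Prop :=
  Algebra.trdeg k₀ (IntermediateField.adjoin k₀ (Set.range y)) ≤ w ∧
    (∀ i, ∃ j, aeval y (P i j) ≠ 0) ∧ (∀ i ∈ Z, eval y (F i) = 0) ∧
    ∀ i ∈ C, ∃ z : M, z ^ m i = eval y (F i)

theorem eval_div_hom {L : Type*} [Field L] {N n : ℕ} (F : MvPolynomial (Fin (N + 1)) L)
    (hF : F.IsHomogeneous n) (x : Fin (N + 1) → L) (t : L) :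
    eval (fun i => x i / t) F = eval x F / t ^ n := by
  rw [← form_cf F hF, ← form_cf F hF, form, form, Finset.sum_div]
  refine Finset.sum_congr rfl (fun J _ => ?_)
  rw [mon, mon, Multiset.prod_map_div, Multiset.map_const', Multiset.prod_replicate,
    Sym.card_coe, mul_div_assoc]

theorem cond_XY {k₀ K M : Type*} [Field k₀] [Field K] [Field M] [Algebra k₀ M] [Algebra K M]
    {N r n : ℕ} (d m : Fin r → ℕ) (b : Fin r → Fin n → ℕ)
    (F : Fin r → MvPolynomial (Fin (N + 1)) K) (hF : ∀ i, (F i).IsHomogeneous (d i))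
    (g : GL (Fin (N + 1)) M) (P : Fin r → Fin n → MvPolynomial (Fin (N + 1)) k₀)
    (hP : ∀ i j, (P i j).IsHomogeneous (b i j))
    (Z C : Finset (Fin r)) (hm : ∀ i ∈ C, m i ∣ d i) (w : ℕ) (x : Fin (N + 1) → K)
    (h : CondX m F g P Z C w x) (i₀ : Fin (N + 1))
    (h0 : (g⁻¹ : GL (Fin (N + 1)) M).1.mulVec (fun l => algebraMap K M (x l)) i₀ ≠ 0) :
    CondY m (fun i => subst (g : Matrix _ _ M) (F i)) P Z C w
      fun i => (g⁻¹ : GL (Fin (N + 1)) M).1.mulVec (fun l => algebraMap K M (x l)) i /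
        (g⁻¹ : GL (Fin (N + 1)) M).1.mulVec (fun l => algebraMap K M (x l)) i₀ := by
  classical
  obtain ⟨h1, h2, h3, h4⟩ := h
  obtain ⟨y, hy⟩ : ∃ y : Fin (N + 1) → M,
      y = (g⁻¹ : GL (Fin (N + 1)) M).1.mulVec (fun l => algebraMap K M (x l)) := ⟨_, rfl⟩
  rw [← hy] at h0 h1 h2 ⊢
  have hgy : (g : Matrix (Fin (N + 1)) (Fin (N + 1)) M).mulVec y =
      fun l => algebraMap K M (x l) := by
    rw [hy, Matrix.mulVec_mulVec, ← Matrix.GeneralLinearGroup.coe_mul, mul_inv_cancel,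
      Matrix.GeneralLinearGroup.coe_one, Matrix.one_mulVec]
  have hev : ∀ i, eval y (subst (g : Matrix _ _ M) (F i)) = algebraMap K M (eval x (F i)) := by
    intro i
    rw [eval_subst, hgy, aeval_def]
    exact (eval₂_comp_left (algebraMap K M) (RingHom.id K) x (F i)).symm
  have hev' : ∀ i, eval (fun l => y l / y i₀) (subst (g : Matrix _ _ M) (F i)) =
      algebraMap K M (eval x (F i)) / y i₀ ^ d i := by
    intro i
    rw [eval_div_hom _ (subst_hom _ _ (hF i)), hev]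
  refine ⟨?_, ?_, ?_, ?_⟩
  · refine (trdeg_le_of_injective (IntermediateField.inclusion ?_)
      (IntermediateField.inclusion_injective _)).trans h2
    rw [ratioField]
    refine IntermediateField.adjoin.mono _ _ _ ?_
    rintro _ ⟨i, rfl⟩
    exact ⟨i, i₀, rfl⟩
  · intro i
    obtain ⟨j, hj⟩ := h1 i
    refine ⟨j, ?_⟩
    have e1 : ∀ z : Fin (N + 1) → M, aeval z (P i j) = eval z (map (algebraMap k₀ M) (P i j)) :=
      fun z => by rw [aeval_def, MvPolynomial.eval_map]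
    rw [e1, eval_div_hom _ ((hP i j).map _), ← e1]
    exact div_ne_zero hj (pow_ne_zero _ h0)
  · intro i hi
    simp only
    rw [hev', h3 i hi, map_zero, zero_div]
  · intro i hi
    obtain ⟨z, hz⟩ := h4 i hi
    refine ⟨algebraMap K M z / y i₀ ^ (d i / m i), ?_⟩
    simp only
    rw [hev', div_pow, ← map_pow, hz, ← pow_mul, Nat.div_mul_cancel (hm i hi)]

set_option maxHeartbeats 400000 in
/-- the passage from fields to schemes -/
theorem main_eng {κ : Type*} [CommRing κ] {B : Scheme.{u}} [IsIntegral B]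
    [Algebra κ B.functionField]
    (V : B.Opens) [Nonempty V] (hV : IsAffineOpen V) (A₀ : Subalgebra κ B.functionField)
    (hA₀ : A₀.FG) (hVA : ∀ b : Γ(B, V), B.germToFunctionField V b ∈ A₀)
    {U : Scheme.{u}} (π : U ⟶ B) [IsSeparated π] [LocallyOfFiniteType π] [QuasiCompact π]
    {N r n : ℕ} (d m : Fin r → ℕ) (b : Fin r → Fin n → ℕ) (hd : ∀ i, 0 < d i)
    (F : Fin r → MvPolynomial (Fin (N + 1)) B.functionField)
    (hF : ∀ i, (F i).IsHomogeneous (d i))
    (f : genFib π ⟶ PN N B.functionField) (hf : f ≫ PN.toSpec N _ = pullback.snd _ _)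
    [LocallyQuasiFinite f] (Z C : Finset (Fin r)) (hm : ∀ i ∈ C, m i ∣ d i)
    (hU : ∀ i ∉ Z, i ∉ C → ∀ z : genFib π, NonVanishing (f z) (F i))
    (k₀ : Subfield B.functionField)
    (M : Type v) [Field M] [Algebra B.functionField M] [Algebra κ M]
    [IsScalarTower κ B.functionField M] (g : GL (Fin (N + 1)) M)
    (P : Fin r → Fin n → MvPolynomial (Fin (N + 1)) k₀)
    (hP : ∀ i j, (P i j).IsHomogeneous (b i j)) (w : ℕ)
    (hfin : ∀ (i₀ : Fin (N + 1)) (A : Subalgebra κ M), A.FG →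
      {y : Fin (N + 1) → M | y i₀ = 1 ∧
        CondY m (fun i => subst (g : Matrix _ _ M) (F i)) P Z C w y ∧
        ∀ i ∈ (Z ∪ C)ᶜ, eval y (subst (g : Matrix _ _ M) (F i)) ≠ 0 ∧
          ∀ J : Sym (Fin (N + 1)) (d i),
            mon y J / eval y (subst (g : Matrix _ _ M) (F i)) ∈ A}.Finite) :
    {σ : B ⟶ U | ∃ hσ : σ ≫ π = 𝟙 B, ∀ (t : Spec B.functionField)
      (x : Fin (N + 1) → B.functionField), IsCoord (f (genPt π σ hσ t)) x →
      CondX m F g P Z C w x}.Finite := by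
  classical
  refine wrap_core (κ := κ) V hV A₀ hA₀ hVA π d hd F hF f hf (Z ∪ C)ᶜ ?_ M
    (CondX m F g P Z C w) ?_
  · intro i hi
    rw [Finset.mem_compl, Finset.mem_union] at hi
    push Not at hi
    exact hU i hi.1 hi.2
  · intro A hA
    have h0 := points (κ := κ) (L := B.functionField) (M := M) d F hF g (Z ∪ C)ᶜ
      (CondY m (fun i => subst (g : Matrix _ _ M) (F i)) P Z C w)
    have h1 := h0 hfin A hA
    refine h1.subset ?_
    rintro x ⟨h1, h2⟩
    exact ⟨fun i₀ h0 => cond_XY d m b F hF g P hP Z C hm w x.rep h1 i₀ h0, h2⟩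

set_option maxHeartbeats 400000 in
theorem main_v (R : CommRingCat.{u}) (B : Scheme.{u}) [IsIntegral B] (s : B ⟶ Spec R)
    [LocallyOfFiniteType s] [CharZero B.functionField]
    (U : Scheme.{u}) (π : U ⟶ B) [IsSeparated π] [LocallyOfFiniteType π] [QuasiCompact π]
    {N r n : ℕ} (d q m : Fin r → ℕ) (b : Fin r → Fin n → ℕ) (hq : ∀ i, 0 < q i)
    (hb : ∀ i j, b i j + q i ≤ d i)
    (F : Fin r → MvPolynomial (Fin (N + 1)) B.functionField)
    (hF : ∀ i, (F i).IsHomogeneous (d i))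
    (f : genFib π ⟶ PN N B.functionField) (hf : f ≫ PN.toSpec N _ = pullback.snd _ _)
    [LocallyQuasiFinite f]
    (Z C : Finset (Fin r)) (hZC : Disjoint Z C) (hm : ∀ i ∈ C, m i ∣ d i)
    (hU : ∀ i ∉ Z, i ∉ C → ∀ z : genFib π, NonVanishing (f z) (F i))
    (k₀ : Subfield B.functionField)
    (hk₀ : ∀ r : R, (Spec.preimage (B.fromSpecStalk (genericPoint B) ≫ s)).hom r ∈ k₀)
    (M : Type v) [Field M] [Algebra B.functionField M]
    (hM : (⊤ : IntermediateField B.functionField M).FG) (g : GL (Fin (N + 1)) M)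
    (A : Fin r → MvPolynomial (Fin (N + 1)) k₀) (hA : ∀ i, (A i).IsHomogeneous (d i))
    (P : Fin r → Fin n → MvPolynomial (Fin (N + 1)) k₀)
    (hP : ∀ i j, (P i j).IsHomogeneous (b i j))
    (H : Fin r → Fin n → MvPolynomial (Fin (N + 1)) M)
    (hH : ∀ i j, (H i j).IsHomogeneous (d i - b i j))
    (hFA : ∀ i, subst (g : Matrix _ _ M) (F i) =
      map (algebraMap k₀ M) (A i) + ∑ j, map (algebraMap k₀ M) (P i j) * H i j)
    (w c : ℕ)
    (hcoef : ((∑ i, ∑ j, (N + (d i - b i j)).choose N : ℕ) : Cardinal) ≤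
      Algebra.trdeg k₀ (coeffField k₀ H) + c)
    (hnum : 2 * w + 2 + c + ∑ i ∈ C, d i / m i ≤ ∑ i, q i + Z.card ∨
      (Z = Finset.univ ∧ 2 * w + 1 + c ≤ ∑ i, (q i + 1) ∧ w + 2 ≤ ∑ i, q i ∧
        2 * N + c ≤ ∑ i, (q i + 1) + 1) ∨
      (Algebra.FiniteType ℤ R ∧ C = ∅ ∧ 2 * N + 1 + c ≤ ∑ i, q i + Z.card ∧
        N + 2 ≤ ∑ i, q i)) :
    {σ : B ⟶ U | ∃ hσ : σ ≫ π = 𝟙 B, ∀ (t : Spec B.functionField)
      (x : Fin (N + 1) → B.functionField), IsCoord (f (genPt π σ hσ t)) x →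
      CondX m F g P Z C w x}.Finite := by
  classical
  haveI : CharZero M :=
    charZero_of_injective_algebraMap (algebraMap B.functionField M).injective
  by_cases hn : Nonempty (Fin r → Fin n)
  swap
  · -- no multipliers
    have hr : ∃ i : Fin r, ∀ j : Fin n, False := by
      by_contra hne
      push Not at hne
      exact hn ⟨fun i => (hne i).choose⟩
    obtain ⟨i, hi⟩ := hr
    refine Set.Finite.subset Set.finite_empty ?_
    rintro σ ⟨hσ, h1⟩
    obtain ⟨t⟩ : Nonempty (Spec B.functionField) := inferInstance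
    obtain ⟨x, hx⟩ := exists_coord (genPt π σ hσ ≫ f)
      (by rw [Category.assoc, hf]; exact ffib_snd π σ hσ) t
    obtain ⟨j, -⟩ := (h1 t x hx).1 i
    exact hi j
  have hd : ∀ i, 0 < d i := by
    obtain ⟨j⟩ := hn
    intro i
    have := hq i
    have := hb i (j i)
    omega
  rcases hnum with hnum | ⟨hZ, h1, h2, h3⟩ | ⟨hR, hC, h1, h2⟩
  · obtain ⟨V, hVne, hV, ⟨A₀, hA₀, hVA⟩, hKfg⟩ := exists_affine_ft R s k₀ hk₀
    haveI := hVne
    have hfg : (⊤ : IntermediateField k₀ M).FG := wrap_fg_trans hKfg hM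
    refine main_eng (κ := k₀) V hV A₀ hA₀ hVA π d m b hd F hF f hf Z C hm hU k₀ M g P hP w ?_
    intro i₀ R' hR'
    have h9 := eng_G (k₀ := k₀) (L := M) hfg d q m b hq hb
      (fun i => subst (g : Matrix _ _ M) (F i))
    have h12 := h9 A hA P hP H hH
    have h13 := h12 hFA
    have h14 := h13 w c hcoef
    have h15 := h14 Z C hZC hm hnum
    have h11 := h15 i₀ R' hR'
    refine h11.subset ?_
    rintro y ⟨h4, ⟨h5, h6, h7, h8⟩, h9⟩
    exact ⟨h4, ⟨h5, h6, h7, h8⟩, h9⟩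
  · obtain ⟨V, hVne, hV, ⟨A₀, hA₀, hVA⟩, hKfg⟩ := exists_affine_ft R s k₀ hk₀
    haveI := hVne
    have hfg : (⊤ : IntermediateField k₀ M).FG := wrap_fg_trans hKfg hM
    refine main_eng (κ := k₀) V hV A₀ hA₀ hVA π d m b hd F hF f hf Z C hm hU k₀ M g P hP w ?_
    intro i₀ R' hR'
    have h9 := eng_A (k₀ := k₀) (L := M) hfg d q b hq hb
      (fun i => subst (g : Matrix _ _ M) (F i))
    have h12 := h9 A hA P hP H hH
    have h13 := h12 hFA
    have h14 := h13 w c hcoef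
    have h15 := h14 h1 h2 h3 i₀
    refine h15.subset ?_
    rintro y ⟨h4, ⟨h5, h6, h7, -⟩, -⟩
    exact ⟨h4, h5, h6, fun i => h7 i (by rw [hZ]; exact Finset.mem_univ i)⟩
  · haveI := hR
    obtain ⟨V, hVne, hV, ⟨A₀, hA₀, hVA⟩, -⟩ := exists_affine_ftZ R s
    haveI := hVne
    obtain ⟨-, -, -, -, hKfg⟩ := exists_affine_ft R s k₀ hk₀
    have hfg : (⊤ : IntermediateField k₀ M).FG := wrap_fg_trans hKfg hM
    have h9 := eng_B (k₀ := k₀) (L := M) hfg d q b hq hb
      (fun i => subst (g : Matrix _ _ M) (F i))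
    have h12 := h9 A hA P hP H hH
    have h13 := h12 hFA
    have h14 := h13 c hcoef
    have h15 := h14 Z h1 h2
    have h10 := main_eng (κ := ℤ) V hV A₀ hA₀ hVA π d m b hd F hF f hf Z C hm hU k₀ M g P hP w
    refine h10 ?_
    intro i₀ R' hR'
    have h11 := h15 i₀ R' hR'
    refine h11.subset ?_
    rintro y ⟨h4, ⟨h5, h6, h7, -⟩, h8⟩
    refine ⟨h4, h6, h7, fun i hi => h8 i ?_⟩
    rw [hC, Finset.union_empty, Finset.mem_compl]
    exact hi

end Pool.Agent.Helper8.LV
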