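import Pool.Agent.Helper8.LG.SDefs
import Pool.Agent.Helper8.LG.Poly
import Pool.Agent.Helper10.LB.ProjLines

/-! # LV-PTSL: finitely many subspaces, from normalised points over `M` to vectors over `L` -/

set_option autoImplicit false

open MvPolynomial

namespace Pool.Agent.Helper8.LV

open scoped BigOperators
open Pool.Agent.Helper8.LG Pool.Agent.Helper10.LB

private theorem ptsl_mon_smul {M : Type*} [Field M] {N n : ℕ} (c : M) (x : Fin (N + 1) → M)
    (J : Sym (Fin (N + 1)) n) : mon (fun i => c * x i) J = c ^ n * mon x J := by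
  rw [mon, mon, Multiset.prod_map_mul, Multiset.map_const', Multiset.prod_replicate, Sym.card_coe]

private theorem ptsl_mon_map {L M : Type*} [Field L] [Field M] [Algebra L M] {N n : ℕ}
    (x : Fin (N + 1) → L) (J : Sym (Fin (N + 1)) n) :
    mon (fun i => algebraMap L M (x i)) J = algebraMap L M (mon x J) := by
  rw [mon, mon, map_multiset_prod, Multiset.map_map]
  rfl

private theorem ptsl_eval_smul {M : Type*} [Field M] {N n : ℕ}
    (F : MvPolynomial (Fin (N + 1)) M) (hF : F.IsHomogeneous n) (c : M)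
    (x : Fin (N + 1) → M) : eval (fun i => c * x i) F = c ^ n * eval x F := by
  rw [← form_cf F hF, ← form_cf F hF, form, form, Finset.mul_sum]
  refine Finset.sum_congr rfl (fun J _ => ?_)
  rw [ptsl_mon_smul]
  ring

theorem points_sub {κ L M : Type*} [CommRing κ] [Field L] [Field M] [Algebra κ M] [Algebra L M]
    {N r : ℕ} (d : Fin r → ℕ) (F : Fin r → MvPolynomial (Fin (N + 1)) L)
    (hF : ∀ i, (F i).IsHomogeneous (d i)) (g : GL (Fin (N + 1)) M) (T : Finset (Fin r))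
    (e : ℕ) (Q : (Fin (N + 1) → M) → Prop)
    (hfin : ∀ (i₀ : Fin (N + 1)) (A : Subalgebra κ M), A.FG →
      ∃ Λ : Set (Submodule M (Fin (N + 1) → M)), Λ.Finite ∧ (∀ W ∈ Λ, Module.finrank M W ≤ e) ∧
        ∀ y : Fin (N + 1) → M, y i₀ = 1 → Q y →
          (∀ i ∈ T, eval y (subst (g : Matrix _ _ M) (F i)) ≠ 0 ∧
            ∀ J : Sym (Fin (N + 1)) (d i),
              mon y J / eval y (subst (g : Matrix _ _ M) (F i)) ∈ A) → ∃ W ∈ Λ, y ∈ W)
    (A : Subalgebra κ M) (hA : A.FG) :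
    ∃ Λ : Set (Submodule L (Fin (N + 1) → L)), Λ.Finite ∧ (∀ W ∈ Λ, Module.finrank L W ≤ e) ∧
      ∀ x : Fin (N + 1) → L, x ≠ 0 →
        (∀ i₀, (g⁻¹ : GL (Fin (N + 1)) M).1.mulVec (fun l => algebraMap L M (x l)) i₀ ≠ 0 →
          Q fun i => (g⁻¹ : GL (Fin (N + 1)) M).1.mulVec (fun l => algebraMap L M (x l)) i /
            (g⁻¹ : GL (Fin (N + 1)) M).1.mulVec (fun l => algebraMap L M (x l)) i₀) →
        (∀ i ∈ T, eval x (F i) ≠ 0 ∧ ∀ J : Sym (Fin (N + 1)) (d i),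
          algebraMap L M (mon x J / eval x (F i)) ∈ A) → ∃ W ∈ Λ, x ∈ W := by
  classical
  obtain ⟨h, hh⟩ : ∃ h : Matrix (Fin (N + 1)) (Fin (N + 1)) M,
      h = (g⁻¹ : GL (Fin (N + 1)) M).1 := ⟨_, rfl⟩
  have hgh : (g : Matrix (Fin (N + 1)) (Fin (N + 1)) M) * h = 1 := by
    rw [hh]; exact Units.mul_inv g
  have hunit : IsUnit h := by rw [hh]; exact Units.isUnit _
  rw [← hh]
  -- the coordinates over `M`
  obtain ⟨ξ, hξ⟩ : ∃ ξ : (Fin (N + 1) → L) → Fin (N + 1) → M,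
      ξ = fun x l => algebraMap L M (x l) := ⟨_, rfl⟩
  have hξ' : ∀ x : Fin (N + 1) → L, (fun l => algebraMap L M (x l)) = ξ x := by
    intro x; rw [hξ]
  have hgy : ∀ x, (g : Matrix (Fin (N + 1)) (Fin (N + 1)) M).mulVec (h.mulVec (ξ x)) = ξ x := by
    intro x
    rw [Matrix.mulVec_mulVec, hgh, Matrix.one_mulVec]
  have hy0 : ∀ x, x ≠ 0 → ∃ i₀, h.mulVec (ξ x) i₀ ≠ 0 := by
    intro x hx0
    by_contra hne
    push Not at hne
    have h1 := hgy x
    rw [show h.mulVec (ξ x) = 0 from funext hne, Matrix.mulVec_zero, hξ] at h1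
    refine hx0 (funext fun i => ?_)
    have h2 := congrFun h1 i
    simp only [Pi.zero_apply] at h2 ⊢
    exact (map_eq_zero_iff _ (algebraMap L M).injective).1 h2.symm
  -- the new polynomials
  have hF'h : ∀ i, (subst (g : Matrix _ _ M) (F i)).IsHomogeneous (d i) :=
    fun i => subst_hom _ _ (hF i)
  have hev : ∀ x i, eval (h.mulVec (ξ x)) (subst (g : Matrix _ _ M) (F i))
      = algebraMap L M (eval x (F i)) := by
    intro x i
    rw [eval_subst, hgy, hξ]
    simp only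
    rw [aeval_def]
    exact (eval₂_comp_left (algebraMap L M) (RingHom.id L) x (F i)).symm
  -- the new algebra
  obtain ⟨A', hA'⟩ : ∃ A' : Subalgebra κ M,
      A' = A ⊔ Algebra.adjoin κ (Set.range fun p : Fin (N + 1) × Fin (N + 1) => h p.1 p.2) :=
    ⟨_, rfl⟩
  have hAA' : A ≤ A' := by rw [hA']; exact le_sup_left
  have hhA' : ∀ i j, h i j ∈ A' := by
    intro i j
    rw [hA']
    exact (le_sup_right : _ ≤ A ⊔ Algebra.adjoin κ (Set.range fun p : Fin (N + 1) ×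
      Fin (N + 1) => h p.1 p.2)) (Algebra.subset_adjoin ⟨(i, j), rfl⟩)
  have hA'fg : A'.FG := by
    rw [hA']
    refine hA.sup ?_
    have h1 := Subalgebra.fg_adjoin_finset (R := κ) (A := M)
      (Finset.univ.image fun p : Fin (N + 1) × Fin (N + 1) => h p.1 p.2)
    rwa [Finset.coe_image, Finset.coe_univ, Set.image_univ] at h1
  -- the subspaces
  have hl : ∀ i₀ : Fin (N + 1), ∃ Λ : Set (Submodule M (Fin (N + 1) → M)), Λ.Finite ∧
      (∀ W ∈ Λ, Module.finrank M W ≤ e) ∧ ∀ y : Fin (N + 1) → M, y i₀ = 1 → Q y →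
        (∀ i ∈ T, eval y (subst (g : Matrix _ _ M) (F i)) ≠ 0 ∧
          ∀ J : Sym (Fin (N + 1)) (d i),
            mon y J / eval y (subst (g : Matrix _ _ M) (F i)) ∈ A') → ∃ W ∈ Λ, y ∈ W :=
    fun i₀ => hfin i₀ A' hA'fg
  choose Λ hΛ1 hΛ2 hΛ3 using hl
  refine ⟨⋃ i₀, plDesc (L := L) h '' Λ i₀, Set.finite_iUnion fun i₀ => (hΛ1 i₀).image _, ?_, ?_⟩
  · intro W hW
    obtain ⟨i₀, hi₀⟩ := Set.mem_iUnion.1 hW
    obtain ⟨W₁, hW₁, rfl⟩ := hi₀
    exact (finrank_plDesc h hunit W₁).trans (hΛ2 i₀ W₁ hW₁)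
  · intro x hx0 hxQ hxT
    simp only [hξ'] at hxQ
    obtain ⟨i₀, hi₀⟩ := hy0 x hx0
    have hu0 : (h.mulVec (ξ x) i₀)⁻¹ ≠ 0 := inv_ne_zero hi₀
    obtain ⟨y, hy⟩ : ∃ y : Fin (N + 1) → M,
        y = fun i => (h.mulVec (ξ x) i₀)⁻¹ * h.mulVec (ξ x) i := ⟨_, rfl⟩
    have hyd : (fun i => h.mulVec (ξ x) i / h.mulVec (ξ x) i₀) = y := by
      rw [hy]
      funext i
      rw [div_eq_mul_inv, mul_comm]
    have hQ : Q y := by
      have h1 := hxQ i₀ hi₀
      rwa [hyd] at h1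
    have hy1 : y i₀ = 1 := by
      rw [hy]
      exact inv_mul_cancel₀ hi₀
    have hevy : ∀ i, eval y (subst (g : Matrix _ _ M) (F i))
        = (h.mulVec (ξ x) i₀)⁻¹ ^ d i * algebraMap L M (eval x (F i)) := by
      intro i
      rw [hy, ptsl_eval_smul _ (hF'h i), hev]
    obtain ⟨W, hW, hyW⟩ := hΛ3 i₀ y hy1 hQ (fun i hi => by
      obtain ⟨h5, h6⟩ := hxT i hi
      have hud : (h.mulVec (ξ x) i₀)⁻¹ ^ d i ≠ 0 := pow_ne_zero _ hu0
      refine ⟨?_, fun J => ?_⟩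
      · rw [hevy]
        exact mul_ne_zero hud ((map_ne_zero_iff _ (algebraMap L M).injective).2 h5)
      · obtain ⟨b, hb, hb'⟩ := mon_mulVec h A'.toSubring hhA' J
        have h7 : mon y J / eval y (subst (g : Matrix _ _ M) (F i))
            = ∑ J', b J' * algebraMap L M (mon x J' / eval x (F i)) := by
          rw [hevy, hy, ptsl_mon_smul, mul_div_mul_left _ _ hud, hb' (ξ x), Finset.sum_div]
          refine Finset.sum_congr rfl (fun J' _ => ?_)
          rw [map_div₀, hξ]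
          simp only
          rw [ptsl_mon_map, mul_div_assoc]
        rw [h7]
        exact A'.sum_mem fun J' _ => A'.mul_mem (hb J') (hAA' (h6 J')))
    refine ⟨plDesc h W, Set.mem_iUnion.2 ⟨i₀, W, hW, rfl⟩, ?_⟩
    rw [mem_plDesc]
    have h8 : (h.mulVec fun i => algebraMap L M (x i)) = h.mulVec (ξ x) i₀ • y := by
      funext i
      rw [hy, Pi.smul_apply, smul_eq_mul, ← mul_assoc, mul_inv_cancel₀ hi₀, one_mul, hξ]
    rw [h8]
    exact W.smul_mem _ hyW

end Pool.Agent.Helper8.LV
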