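import Pool.Agent.Helper8.LG.SDefs
import Pool.Agent.Helper8.LG.Poly
import Pool.Agent.Helper8.LG.GenFun
import Pool.Agent.Helper8.LG.FinFib

/-! # LV-WRAPL: finitely many subspaces, from vectors over the function field to sections -/

set_option autoImplicit false

open AlgebraicGeometry CategoryTheory CategoryTheory.Limits MvPolynomial

namespace Pool.Agent.Helper8.LV

open Pool.Agent.Helper8.LG

attribute [local instance] MvPolynomial.gradedAlgebra

universe u v

theorem wrap_sub {κ : Type*} [CommRing κ] {B : Scheme.{u}} [IsIntegral B]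
    [Algebra κ B.functionField]
    (V : B.Opens) [Nonempty V] (hV : IsAffineOpen V) (A₀ : Subalgebra κ B.functionField)
    (hA₀ : A₀.FG) (hVA : ∀ b : Γ(B, V), B.germToFunctionField V b ∈ A₀)
    {U : Scheme.{u}} (π : U ⟶ B) [IsSeparated π] [LocallyOfFiniteType π] [QuasiCompact π]
    {N r : ℕ} (d : Fin r → ℕ) (hd : ∀ i, 0 < d i)
    (F : Fin r → MvPolynomial (Fin (N + 1)) B.functionField)
    (hF : ∀ i, (F i).IsHomogeneous (d i))
    (f : genFib π ⟶ PN N B.functionField) (hf : f ≫ PN.toSpec N _ = pullback.snd _ _)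
    (T : Finset (Fin r))
    (hU : ∀ i ∈ T, ∀ z : genFib π, NonVanishing (f z) (F i))
    (M : Type v) [Field M] [Algebra B.functionField M] [Algebra κ M]
    [IsScalarTower κ B.functionField M] (e : ℕ) (Q : (Fin (N + 1) → B.functionField) → Prop)
    (hfin : ∀ A : Subalgebra κ M, A.FG →
      ∃ Λ : Set (Submodule B.functionField (Fin (N + 1) → B.functionField)), Λ.Finite ∧
        (∀ W ∈ Λ, Module.finrank B.functionField W ≤ e) ∧
        ∀ x : Fin (N + 1) → B.functionField, x ≠ 0 → Q x →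
          (∀ i ∈ T, eval x (F i) ≠ 0 ∧ ∀ J : Sym (Fin (N + 1)) (d i),
            algebraMap B.functionField M (mon x J / eval x (F i)) ∈ A) → ∃ W ∈ Λ, x ∈ W) :
    ∃ Λ : Set (Submodule B.functionField (Fin (N + 1) → B.functionField)), Λ.Finite ∧
      (∀ W ∈ Λ, Module.finrank B.functionField W ≤ e) ∧
      ∀ (σ : B ⟶ U) (hσ : σ ≫ π = 𝟙 B) (t : Spec B.functionField)
        (x : Fin (N + 1) → B.functionField), IsCoord (f (genPt π σ hσ t)) x → Q x →
        ∃ W ∈ Λ, x ∈ W := by
  classical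
  obtain ⟨T', hT'⟩ := hA₀
  -- the functions
  have hfun : ∀ (i : {i : Fin r // i ∈ T}) (J : Sym (Fin (N + 1)) (d i)),
      ∃ s : Γ(B, V), B.germToFunctionField V s ≠ 0 ∧
      ∀ (σ : B ⟶ U) (hσ : σ ≫ π = 𝟙 B) (t : Spec B.functionField)
        (x : Fin (N + 1) → B.functionField), IsCoord (f (genPt π σ hσ t)) x →
        ∃ b : Γ(B, V), B.germToFunctionField V s * (mon x J / eval x (F i)) =
          B.germToFunctionField V b := by
    intro i J
    obtain ⟨φ, hφ⟩ := exists_fun π f hf (hd i) (F i) (hF i)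
      (fun z => (Proj.mem_basicOpen _ _ _).2 (hU i i.2 z))
      (monX B.functionField J) (monX_hom _ J)
    obtain ⟨s, hs, hsb⟩ := spread π V hV φ
    refine ⟨s, hs, fun σ hσ t x hx => ?_⟩
    obtain ⟨b, hb⟩ := hsb σ hσ
    refine ⟨b, ?_⟩
    rw [← hb, hφ σ hσ t x hx, eval_monX]
  choose sf hsf hsb using hfun
  let ι := algebraMap B.functionField M
  let S : Set M := ι '' T' ∪ Set.range fun p : (Σ i : {i : Fin r // i ∈ T},
    Sym (Fin (N + 1)) (d i)) => (ι (B.germToFunctionField V (sf p.1 p.2)))⁻¹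
  have hSfin : S.Finite := (T'.finite_toSet.image ι).union (Set.finite_range _)
  let A : Subalgebra κ M := Algebra.adjoin κ S
  have hA : A.FG := Subalgebra.fg_def.mpr ⟨S, hSfin, rfl⟩
  have hιA : ∀ a ∈ A₀, ι a ∈ A := by
    intro a ha
    rw [← hT'] at ha
    induction ha using Algebra.adjoin_induction with
    | mem x hx => exact Algebra.subset_adjoin (Or.inl ⟨x, hx, rfl⟩)
    | algebraMap a =>
      have h1 : ι (algebraMap κ B.functionField a) = algebraMap κ M a :=
        (IsScalarTower.algebraMap_apply κ B.functionField M a).symm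
      rw [h1]
      exact A.algebraMap_mem _
    | add x y _ _ hx hy =>
      rw [map_add]
      exact add_mem hx hy
    | mul x y _ _ hx hy =>
      rw [map_mul]
      exact mul_mem hx hy
  obtain ⟨Λ, hΛ, hΛe, hmain⟩ := hfin A hA
  refine ⟨Λ, hΛ, hΛe, fun σ hσ t x hx hQ => ?_⟩
  refine hmain x hx.1 hQ fun i hiT => ⟨?_, fun J => ?_⟩
  · have h4 := hU i hiT (genPt π σ hσ t)
    intro h5
    exact h4 ((hx.2 (d i) (F i) (hF i)).mpr h5)
  · obtain ⟨b, hb⟩ := hsb ⟨i, hiT⟩ J σ hσ t x hx
    have hs0 := hsf ⟨i, hiT⟩ J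
    have h6 : mon x J / eval x (F i) = B.germToFunctionField V b *
        (B.germToFunctionField V (sf ⟨i, hiT⟩ J))⁻¹ := by
      rw [← hb]
      field_simp
    rw [h6, map_mul, map_inv₀]
    exact mul_mem (hιA _ (hVA b)) (Algebra.subset_adjoin (Or.inr ⟨⟨⟨i, hiT⟩, J⟩, rfl⟩))

end Pool.Agent.Helper8.LV
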