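import Pool.Agent.Helper8.LV.MainV
import Pool.Agent.Helper8.LV.EngL
import Pool.Agent.Helper8.LV.PointsL
import Pool.Agent.Helper8.LV.WrapL
import Pool.Agent.Helper8.LV.LineRefine

/-! # LV-MAINL: finitely many lines, over schemes -/

set_option autoImplicit false

open AlgebraicGeometry CategoryTheory CategoryTheory.Limits MvPolynomial

namespace Pool.Agent.Helper8.LV

open scoped BigOperators LinearAlgebra.Projectivization
open Pool.Agent.Helper8.LG hiding coeffField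
open Pool.Agent.Helper10.LB

attribute [local instance] MvPolynomial.gradedAlgebra

universe u v

/-- the conditions on a vector `x` of coordinates over `K` -/
def CondXL {k₀ K M : Type*} [Field k₀] [Field K] [Field M] [Algebra k₀ M] [Algebra K M]
    {N r n : ℕ} (F : Fin r → MvPolynomial (Fin (N + 1)) K)
    (g : GL (Fin (N + 1)) M) (P : Fin r → Fin n → MvPolynomial (Fin (N + 1)) k₀)
    (Z : Finset (Fin r)) (x : Fin (N + 1) → K) : Prop :=
  (∀ i, ∃ j, aeval (pull g x) (P i j) ≠ 0) ∧ ∀ i ∈ Z, MvPolynomial.eval x (F i) = 0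

/-- the conditions on a normalised vector `y` over `M` -/
def CondYL {k₀ M : Type*} [Field k₀] [Field M] [Algebra k₀ M]
    {N r n : ℕ} (F : Fin r → MvPolynomial (Fin (N + 1)) M)
    (P : Fin r → Fin n → MvPolynomial (Fin (N + 1)) k₀)
    (Z : Finset (Fin r)) (y : Fin (N + 1) → M) : Prop :=
  (∀ i, ∃ j, aeval y (P i j) ≠ 0) ∧ ∀ i ∈ Z, MvPolynomial.eval y (F i) = 0

theorem cond_XYL {k₀ K M : Type*} [Field k₀] [Field K] [Field M] [Algebra k₀ M] [Algebra K M]
    {N r n : ℕ} (d : Fin r → ℕ) (b : Fin r → Fin n → ℕ)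
    (F : Fin r → MvPolynomial (Fin (N + 1)) K) (hF : ∀ i, (F i).IsHomogeneous (d i))
    (g : GL (Fin (N + 1)) M) (P : Fin r → Fin n → MvPolynomial (Fin (N + 1)) k₀)
    (hP : ∀ i j, (P i j).IsHomogeneous (b i j))
    (Z : Finset (Fin r)) (x : Fin (N + 1) → K)
    (h : CondXL F g P Z x) (i₀ : Fin (N + 1))
    (h0 : (g⁻¹ : GL (Fin (N + 1)) M).1.mulVec (fun l => algebraMap K M (x l)) i₀ ≠ 0) :
    CondYL (fun i => subst (g : Matrix _ _ M) (F i)) P Z
      fun i => (g⁻¹ : GL (Fin (N + 1)) M).1.mulVec (fun l => algebraMap K M (x l)) i /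
        (g⁻¹ : GL (Fin (N + 1)) M).1.mulVec (fun l => algebraMap K M (x l)) i₀ := by
  classical
  obtain ⟨h1, h3⟩ := h
  obtain ⟨y, hy⟩ : ∃ y : Fin (N + 1) → M,
      y = (g⁻¹ : GL (Fin (N + 1)) M).1.mulVec (fun l => algebraMap K M (x l)) := ⟨_, rfl⟩
  have h1' : ∀ i, ∃ j, aeval y (P i j) ≠ 0 := by
    rw [hy]
    exact h1
  rw [← hy] at h0 ⊢
  have hgy : (g : Matrix (Fin (N + 1)) (Fin (N + 1)) M).mulVec y =
      fun l => algebraMap K M (x l) := by
    rw [hy, Matrix.mulVec_mulVec, ← Matrix.GeneralLinearGroup.coe_mul, mul_inv_cancel,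
      Matrix.GeneralLinearGroup.coe_one, Matrix.one_mulVec]
  have hev : ∀ i, MvPolynomial.eval y (subst (g : Matrix _ _ M) (F i)) =
      algebraMap K M (MvPolynomial.eval x (F i)) := by
    intro i
    rw [eval_subst, hgy, aeval_def]
    exact (eval₂_comp_left (algebraMap K M) (RingHom.id K) x (F i)).symm
  have hev' : ∀ i, MvPolynomial.eval (fun l => y l / y i₀) (subst (g : Matrix _ _ M) (F i)) =
      algebraMap K M (MvPolynomial.eval x (F i)) / y i₀ ^ d i := by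
    intro i
    rw [eval_div_hom _ (subst_hom _ _ (hF i)), hev]
  refine ⟨?_, ?_⟩
  · intro i
    obtain ⟨j, hj⟩ := h1' i
    refine ⟨j, ?_⟩
    have e1 : ∀ z : Fin (N + 1) → M, aeval z (P i j) =
        MvPolynomial.eval z (MvPolynomial.map (algebraMap k₀ M) (P i j)) :=
      fun z => by rw [aeval_def, MvPolynomial.eval_map]
    rw [e1, eval_div_hom _ ((hP i j).map _), ← e1]
    exact div_ne_zero hj (pow_ne_zero _ h0)
  · intro i hi
    simp only
    rw [hev', h3 i hi, map_zero, zero_div]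

/-- the passage from fields to schemes; conclusion: finitely many subspaces of dimension at
most `e` -/
theorem main_sub {κ : Type*} [CommRing κ] {B : Scheme.{u}} [IsIntegral B]
    [Algebra κ B.functionField]
    (V : B.Opens) [Nonempty V] (hV : IsAffineOpen V) (A₀ : Subalgebra κ B.functionField)
    (hA₀ : A₀.FG) (hVA : ∀ b : Γ(B, V), B.germToFunctionField V b ∈ A₀)
    {U : Scheme.{u}} (π : U ⟶ B) [IsSeparated π] [LocallyOfFiniteType π] [QuasiCompact π]
    {N r n : ℕ} (d : Fin r → ℕ) (b : Fin r → Fin n → ℕ) (hd : ∀ i, 0 < d i)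
    (F : Fin r → MvPolynomial (Fin (N + 1)) B.functionField)
    (hF : ∀ i, (F i).IsHomogeneous (d i))
    (f : genFib π ⟶ PN N B.functionField) (hf : f ≫ PN.toSpec N _ = pullback.snd _ _)
    (Z : Finset (Fin r))
    (hU : ∀ i ∉ Z, ∀ z : genFib π, NonVanishing (f z) (F i))
    (k₀ : Subfield B.functionField)
    (M : Type v) [Field M] [Algebra B.functionField M] [Algebra κ M]
    [IsScalarTower κ B.functionField M] (g : GL (Fin (N + 1)) M)
    (P : Fin r → Fin n → MvPolynomial (Fin (N + 1)) k₀)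
    (hP : ∀ i j, (P i j).IsHomogeneous (b i j)) (e : ℕ)
    (hfin : ∀ (i₀ : Fin (N + 1)) (A : Subalgebra κ M), A.FG →
      ∃ Λ : Set (Submodule M (Fin (N + 1) → M)), Λ.Finite ∧ (∀ W ∈ Λ, Module.finrank M W ≤ e) ∧
        ∀ y : Fin (N + 1) → M, y i₀ = 1 →
          CondYL (fun i => subst (g : Matrix _ _ M) (F i)) P Z y →
          (∀ i ∈ Zᶜ, MvPolynomial.eval y (subst (g : Matrix _ _ M) (F i)) ≠ 0 ∧
            ∀ J : Sym (Fin (N + 1)) (d i),
              mon y J / MvPolynomial.eval y (subst (g : Matrix _ _ M) (F i)) ∈ A) →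
          ∃ W ∈ Λ, y ∈ W) :
    ∃ Λ : Set (Submodule B.functionField (Fin (N + 1) → B.functionField)), Λ.Finite ∧
      (∀ W ∈ Λ, Module.finrank B.functionField W ≤ e) ∧
      ∀ (σ : B ⟶ U) (hσ : σ ≫ π = 𝟙 B) (t : Spec B.functionField)
        (x : Fin (N + 1) → B.functionField), IsCoord (f (genPt π σ hσ t)) x →
        CondXL F g P Z x → ∃ W ∈ Λ, x ∈ W := by
  classical
  refine wrap_sub (κ := κ) V hV A₀ hA₀ hVA π d hd F hF f hf Zᶜ ?_ M e (CondXL F g P Z) ?_
  · intro i hi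
    rw [Finset.mem_compl] at hi
    exact hU i hi
  · intro A hA
    have h0 := points_sub (κ := κ) (L := B.functionField) (M := M) d F hF g Zᶜ e
      (CondYL (fun i => subst (g : Matrix _ _ M) (F i)) P Z)
    obtain ⟨Λ, h1, h2, h3⟩ := h0 hfin A hA
    refine ⟨Λ, h1, h2, fun x hx hQ hT => h3 x hx (fun i₀ hi₀ => ?_) hT⟩
    exact cond_XYL d b F hF g P hP Z x hQ i₀ hi₀

set_option maxHeartbeats 1000000 in
/-- the sections lie on finitely many lines, over any base -/
theorem main_lines (R : CommRingCat.{u}) (B : Scheme.{u}) [IsIntegral B] (s : B ⟶ Spec R)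
    [LocallyOfFiniteType s] [CharZero B.functionField]
    (U : Scheme.{u}) (π : U ⟶ B) [IsSeparated π] [LocallyOfFiniteType π] [QuasiCompact π]
    {N r n : ℕ} (d q : Fin r → ℕ) (b : Fin r → Fin n → ℕ) (hd : ∀ i, 0 < d i)
    (hq : ∀ i, 0 < q i) (hb : ∀ i j, b i j + q i ≤ d i)
    (F : Fin r → MvPolynomial (Fin (N + 1)) B.functionField)
    (hF : ∀ i, (F i).IsHomogeneous (d i))
    (f : genFib π ⟶ PN N B.functionField) (hf : f ≫ PN.toSpec N _ = pullback.snd _ _)
    (Z : Finset (Fin r))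
    (hU : ∀ i ∉ Z, ∀ z : genFib π, NonVanishing (f z) (F i))
    (k₀ : Subfield B.functionField)
    (hk₀ : ∀ r : R, (Spec.preimage (B.fromSpecStalk (genericPoint B) ≫ s)).hom r ∈ k₀)
    (M : Type v) [Field M] [Algebra B.functionField M]
    (hM : (⊤ : IntermediateField B.functionField M).FG) (g : GL (Fin (N + 1)) M)
    (A : Fin r → MvPolynomial (Fin (N + 1)) k₀) (hA : ∀ i, (A i).IsHomogeneous (d i))
    (P : Fin r → Fin n → MvPolynomial (Fin (N + 1)) k₀)
    (hP : ∀ i j, (P i j).IsHomogeneous (b i j))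
    (H : Fin r → Fin n → MvPolynomial (Fin (N + 1)) M)
    (hH : ∀ i j, (H i j).IsHomogeneous (d i - b i j))
    (hFA : ∀ i, subst (g : Matrix _ _ M) (F i) = MvPolynomial.map (algebraMap k₀ M) (A i) +
      ∑ j, MvPolynomial.map (algebraMap k₀ M) (P i j) * H i j) (c : ℕ)
    (hcoef : ((∑ i, ∑ j, (N + (d i - b i j)).choose N : ℕ) : Cardinal) ≤
      Algebra.trdeg k₀ (coeffField k₀ H) + c)
    (h1 : 2 * N + 1 + c ≤ ∑ i, q i + Z.card) (h2 : N + 2 ≤ ∑ i, q i) :
    ∃ Λ : Set (Submodule B.functionField (Fin (N + 1) → B.functionField)), Λ.Finite ∧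
      (∀ W ∈ Λ, Module.finrank B.functionField W ≤ 2 ∧
        ∀ i ∈ Z, ∀ x ∈ W, MvPolynomial.eval x (F i) = 0) ∧
      ∀ (σ : B ⟶ U) (hσ : σ ≫ π = 𝟙 B) (t : Spec B.functionField)
        (x : Fin (N + 1) → B.functionField), IsCoord (f (genPt π σ hσ t)) x →
        CondXL F g P Z x → ∃ W ∈ Λ, x ∈ W := by
  classical
  haveI : CharZero M :=
    charZero_of_injective_algebraMap (algebraMap B.functionField M).injective
  obtain ⟨V, hVne, hV, ⟨A₀, hA₀, hVA⟩, hKfg⟩ := exists_affine_ft R s k₀ hk₀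
  haveI := hVne
  have hfg : (⊤ : IntermediateField k₀ M).FG := wrap_fg_trans hKfg hM
  have h9 := eng_L (k₀ := k₀) (L := M) hfg d q b hq hb
    (fun i => subst (g : Matrix _ _ M) (F i))
  have h12 := h9 A hA P hP H hH
  have h13 := h12 hFA
  have h14 := h13 c hcoef
  have h15 := h14 Z h1 h2
  obtain ⟨Λ, hΛ, hΛ2, hΛ3⟩ := main_sub (κ := k₀) V hV A₀ hA₀ hVA π d b hd F hF f hf Z hU k₀ M g
    P hP 2 (fun i₀ R' hR' => by
      obtain ⟨Λ, h4, h5, h6⟩ := h15 i₀ R' hR'
      refine ⟨Λ, h4, h5, ?_⟩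
      rintro y hy ⟨h7, h8⟩ h10
      exact h6 y hy h7 h8 fun i hi => h10 i (Finset.mem_compl.2 hi))
  obtain ⟨Λ', h16, h17, h18⟩ := line_refine d hd F hF Z Λ hΛ hΛ2
  refine ⟨Λ', h16, h17, ?_⟩
  intro σ hσ t x hx hc
  obtain ⟨W, hW, hxW⟩ := hΛ3 σ hσ t x hx hc
  exact h18 W hW x hxW hc.2

end Pool.Agent.Helper8.LV
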